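import Pool.Agent.Run7.h388.RM.PathB

/-!
# Almost surely: paths of random walks and sequences of independent random integers
-/

set_option autoImplicit false

namespace Pool.Agent.Run7.h388.RM

open MeasureTheory ProbabilityTheory Filter Topology Finset
open Pool.Agent.N794.DG

/-- **Almost surely.** The property `R` of sequences of natural numbers holds

(1) for almost all paths of all random walks: the sequence `k ↦ c₀ + κ (X 0 + ... + X (k - 1))`, where the steps `X i` are
independent random natural numbers each of which takes two fixed values `a ≠ b` with probabilities at least `η > 0`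
(`Steps`; no other conditions on the distributions of the steps);

(2) for almost all sequences `k ↦ Y k` of independent random natural numbers such that the probability of every single
value and the exponential sums `E e(θ Y k)` at every irrational frequency tend to zero (`Spread`). -/
def Surely (R : (ℕ → ℕ) → Prop) : Prop :=
  (∀ (Ω : Type) [MeasurableSpace Ω] (P : Measure Ω) (X : ℕ → Ω → ℕ) (η : ℝ) (a b : ℕ), Steps P X η a b →
    ∀ κ : ℕ, 1 ≤ κ → ∀ c₀ : ℕ, ∀ᵐ ω ∂P, R (fun k => c₀ + κ * place X k ω)) ∧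
  (∀ (Ω : Type) [MeasurableSpace Ω] (P : Measure Ω) (Y : ℕ → Ω → ℕ), Spread P Y → ∀ᵐ ω ∂P, R (fun k => Y k ω))

theorem surely_of {Q : (ℕ →₀ ℝ) → Prop} (hQ : Always Q) : Surely fun x => ∀ᶠ K in atTop, Q (empLaw x K) :=
  ⟨fun _ _ _ _ _ _ _ h _ hκ c₀ => always_path hQ h hκ c₀, fun _ _ _ _ h => always_indep hQ h⟩

theorem Surely.mono {R R' : (ℕ → ℕ) → Prop} (h : Surely R) (h' : ∀ x, R x → R' x) : Surely R' :=
  ⟨fun Ω _ P X η a b hX κ hκ c₀ => (h.1 Ω P X η a b hX κ hκ c₀).mono fun _ hω => h' _ hω,
    fun Ω _ P Y hY => (h.2 Ω P Y hY).mono fun _ hω => h' _ hω⟩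

theorem Surely.and {R R' : (ℕ → ℕ) → Prop} (h : Surely R) (h' : Surely R') : Surely fun x => R x ∧ R' x :=
  ⟨fun Ω _ P X η a b hX κ hκ c₀ => (h.1 Ω P X η a b hX κ hκ c₀).and (h'.1 Ω P X η a b hX κ hκ c₀),
    fun Ω _ P Y hY => (h.2 Ω P Y hY).and (h'.2 Ω P Y hY)⟩

theorem Surely.all {ι : Type} [Countable ι] {R : ι → (ℕ → ℕ) → Prop} (h : ∀ i, Surely (R i)) :
    Surely fun x => ∀ i, R i x :=
  ⟨fun Ω _ P X η a b hX κ hκ c₀ => ae_all_iff.2 fun i => (h i).1 Ω P X η a b hX κ hκ c₀,
    fun Ω _ P Y hY => ae_all_iff.2 fun i => (h i).2 Ω P Y hY⟩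

/-- an upper bound for the frequency of a property -/
theorem surely_le {bad : ℕ → Prop} {c : ℝ} (h : ∀ δ : ℝ, 0 < δ → Always fun μ => meas μ bad ≤ c + δ) :
    Surely fun x => ∀ δ : ℝ, 0 < δ → ∀ᶠ K : ℕ in atTop, hits x bad K ≤ (c + δ) * K := by
  have h1 : Surely fun x => ∀ j : ℕ, ∀ᶠ K in atTop, meas (empLaw x K) bad ≤ c + 1 / ((j : ℝ) + 1) :=
    Surely.all fun j => surely_of (h (1 / ((j : ℝ) + 1)) (by positivity))
  refine h1.mono fun x hx δ hδ => ?_
  obtain ⟨j, hj⟩ := exists_nat_one_div_lt hδ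
  filter_upwards [hx j, eventually_ge_atTop 1] with K hK hK1
  have h2 := meas_empLaw_le hK1 hK
  refine h2.trans ?_
  apply mul_le_mul_of_nonneg_right _ (Nat.cast_nonneg K)
  linarith

/-- a lower bound for the frequency of a property -/
theorem surely_ge {good : ℕ → Prop} {c : ℝ} (h : Always fun μ => c ≤ meas μ good) :
    Surely fun x => ∀ᶠ K : ℕ in atTop, c * K ≤ hits x good K := by
  refine (surely_of h).mono fun x hx => ?_
  filter_upwards [hx, eventually_ge_atTop 1] with K hK hK1
  exact le_meas_empLaw hK1 hK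

/-- families indexed by the natural numbers at least ten -/
theorem surely_ten {R : ℕ → (ℕ → ℕ) → Prop} (h : ∀ n, 10 ≤ n → Surely (R n)) : Surely fun x => ∀ n, 10 ≤ n → R n x := by
  have h1 : ∀ n : ℕ, Surely fun x => 10 ≤ n → R n x := by
    intro n
    by_cases hn : 10 ≤ n
    · exact (h n hn).mono fun x hx _ => hx
    · exact ⟨fun Ω _ P X η a b _ κ _ c₀ => Eventually.of_forall fun _ h0 => absurd h0 hn,
        fun Ω _ P Y _ => Eventually.of_forall fun _ h0 => absurd h0 hn⟩
  exact Surely.all h1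

/-- the union bound for the numbers of terms -/
theorem hits_union (x : ℕ → ℕ) (K : ℕ) (S : Finset ℕ) (Q : ℕ → ℕ → Prop) :
    (K : ℝ) ≤ hits x (fun m => ∀ n ∈ S, Q n m) K + ∑ n ∈ S, hits x (fun m => ¬ Q n m) K := by
  classical
  have h1 : range K ⊆ (range K).filter (fun k => ∀ n ∈ S, Q n (x k)) ∪
      S.biUnion fun n => (range K).filter fun k => ¬ Q n (x k) := by
    intro k hk
    rw [mem_union, mem_filter, mem_biUnion]
    by_cases h : ∀ n ∈ S, Q n (x k)
    · exact Or.inl ⟨hk, h⟩
    · push Not at h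
      obtain ⟨n, hn, hn'⟩ := h
      exact Or.inr ⟨n, hn, mem_filter.2 ⟨hk, hn'⟩⟩
  have h2 := (card_le_card h1).trans ((card_union_le _ _).trans (Nat.add_le_add_left card_biUnion_le _))
  rw [card_range] at h2
  have h3 : (K : ℝ) ≤ (((range K).filter (fun k => ∀ n ∈ S, Q n (x k))).card : ℝ) +
      ∑ n ∈ S, (((range K).filter fun k => ¬ Q n (x k)).card : ℝ) := by exact_mod_cast h2
  rw [hits_eq x (fun m => ∀ n ∈ S, Q n m) K]
  refine h3.trans (le_of_eq ?_)
  congr 1
  refine sum_congr rfl fun n _ => ?_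
  rw [hits_eq x (fun m => ¬ Q n m) K]

/-- **Examples.** Independent random natural numbers whose distributions are the terms of a Weyl sequence satisfy
`Spread`. -/
theorem spread_of_weyl {Ω : Type} [MeasurableSpace Ω] {P : Measure Ω} {Y : ℕ → Ω → ℕ} (hY : iIndepFun Y P)
    (hm : ∀ i, Measurable (Y i)) {μ : ℕ → ℕ →₀ ℝ} (hμ : Weyl μ) (hd : ∀ k m, P.real {ω | Y k ω = m} = μ k m) :
    Spread P Y := by
  classical
  have := hY.isProbabilityMeasure
  refine ⟨hY, hm, fun θ hθ => ?_, fun m => ?_⟩
  · refine (hμ.small θ hθ).congr fun k => ?_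
    have hmeas : ∀ m, MeasurableSet {ω | Y k ω = m} := fun m => hm k (measurableSet_singleton m)
    have h1 : P.real {ω | Y k ω ∈ (μ k).support} = 1 := by
      have e : {ω | Y k ω ∈ (μ k).support} = ⋃ m ∈ (μ k).support, {ω | Y k ω = m} := by
        ext ω
        simp
      rw [e, measureReal_biUnion_finset]
      · rw [← hμ.sum_one k]
        exact sum_congr rfl fun m _ => hd k m
      · intro m _ m' _ hmm
        rw [Function.onFun, Set.disjoint_left]
        intro ω h1 h2
        exact hmm (h1.symm.trans h2)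
      · exact fun m _ => hmeas m
    have hms : MeasurableSet {ω | Y k ω ∈ (μ k).support} := hm k (Set.Finite.measurableSet (Finset.finite_toSet _))
    have h2 : ∀ᵐ ω ∂P, Y k ω ∈ (μ k).support := by
      have h3 : P.real {ω | Y k ω ∈ (μ k).support}ᶜ = 0 := by
        rw [probReal_compl_eq_one_sub hms, h1, sub_self]
      have h4 : P {ω | Y k ω ∈ (μ k).support}ᶜ = 0 := by
        rw [measureReal_def, ENNReal.toReal_eq_zero_iff] at h3
        rcases h3 with h3 | h3
        · exact h3
        · exact absurd h3 (measure_ne_top _ _)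
      exact h4
    have h5 : ∫ ω, ex (θ * Y k ω) ∂P = ∫ ω, ∑ m ∈ (μ k).support, ({ω | Y k ω = m}).indicator (fun _ => ex (θ * m)) ω ∂P := by
      apply integral_congr_ae
      filter_upwards [h2] with ω hω
      rw [sum_eq_single (Y k ω)]
      · rw [Set.indicator_of_mem]
        exact rfl
      · intro m _ hne
        rw [Set.indicator_of_notMem]
        exact fun h => hne h.symm
      · intro h
        exact absurd hω h
    rw [h5, integral_finsetSum]
    · refine sum_congr rfl fun m _ => ?_
      rw [integral_indicator_const _ (hmeas m), hd]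
      simp
    · intro m _
      exact (integrable_const _).indicator (hmeas m)
  · simp only [hd]
    exact hμ.escape m

end Pool.Agent.Run7.h388.RM
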