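import Pool.Agent.N794.DG.Near

/-!
# Random walks, binomial laws and independent perturbations

Further classes of random integers which are covered by `Always` (`Pool.Agent.N794.DG.Near`, starting tree).
-/

set_option autoImplicit false

namespace Pool.Agent.Run7.h388.RM

open Finset
open scoped Real
open Pool.Agent.N794.DG

/-- The random integer `c₀ + κ (v₁ + ... + v_k)` with independent steps `v_j` in `{0, ..., b - 1}` which have the
probabilities `p j`. -/
noncomputable def walkLaw {b k : ℕ} (p : Fin k → Fin b → ℝ) (c₀ κ : ℕ) : ℕ →₀ ℝ :=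
  law univ (fun v : Fin k → Fin b => ∏ j, p j (v j)) (fun v => c₀ + κ * ∑ j, (v j : ℕ))

/-- The random integer `c₀ + κ i`, where `i` is binomial with `k` trials and the probability `q` of success. -/
noncomputable def binLaw (k : ℕ) (q : ℝ) (c₀ κ : ℕ) : ℕ →₀ ℝ :=
  law (range (k + 1)) (fun i => q ^ i * (1 - q) ^ (k - i) * (k.choose i : ℝ)) (fun i => c₀ + κ * i)

/-- The random integer `c₀ + κ i`, where `i` is uniformly distributed in `{0, ..., L - 1}`: a random member of a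
progression with difference `κ` and length `L`. -/
noncomputable def progLaw (L c₀ κ : ℕ) : ℕ →₀ ℝ := law (range L) (fun _ => 1 / (L : ℝ)) (fun i => c₀ + κ * i)

/-- The sum of two independent random integers. -/
noncomputable def addLaw (μ ν : ℕ →₀ ℝ) : ℕ →₀ ℝ :=
  law (μ.support ×ˢ ν.support) (fun i => μ i.1 * ν i.2) (fun i => i.1 + i.2)

/-- `ν` is the distribution of a random natural number with finitely many values. -/
structure IsProb (ν : ℕ →₀ ℝ) : Prop where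
  nonneg : ∀ m, 0 ≤ ν m
  sum_one : ∑ m ∈ ν.support, ν m = 1

lemma ex_sum {ι : Type} (s : Finset ι) (f : ι → ℝ) : ex (∑ i ∈ s, f i) = ∏ i ∈ s, ex (f i) := by
  classical
  induction s using Finset.induction_on with
  | empty => rw [sum_empty, prod_empty, ex_zero]
  | insert a s ha ih => rw [sum_insert ha, prod_insert ha, ex_add, ih]

/-- one random step at an irrational frequency -/
lemma step {b : ℕ} (hb : 2 ≤ b) {η : ℝ} (hη : 0 < η) {t : ℝ} (ht : Irrational t) : ∃ ρ : ℝ, 0 ≤ ρ ∧ ρ < 1 ∧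
    ∀ p : Fin b → ℝ, (∀ x, 0 ≤ p x) → ∑ x, p x = 1 → (∀ x, p x ≤ 1 - η) →
      ‖∑ x, (p x : ℂ) * ex (t * (x : ℕ))‖ ≤ ρ := by
  have hb0 : (0 : ℝ) < b := by exact_mod_cast (by omega : 0 < b)
  have hF0 : (0 : ℝ) < ((b - 1).factorial : ℝ) := by exact_mod_cast Nat.factorial_pos _
  obtain ⟨D, hD⟩ : ∃ D : ℝ, D = |((b - 1).factorial : ℝ) * t - round (((b - 1).factorial : ℝ) * t)| := ⟨_, rfl⟩
  have hD0 : 0 < D := by
    rw [hD, abs_pos, sub_ne_zero]
    exact (ht.natCast_mul (m := (b - 1).factorial) (Nat.factorial_pos _).ne').ne_int _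
  obtain ⟨c, hc⟩ : ∃ c : ℝ, c = 4 * (1 / (b : ℝ) * (η / b)) * (D / ((b - 1).factorial : ℝ)) ^ 2 := ⟨_, rfl⟩
  have hc0 : 0 < c := by
    rw [hc]
    positivity
  refine ⟨max 0 (1 - c), le_max_left _ _, max_lt one_pos (by linarith), fun p h0 h1 h2 => ?_⟩
  refine le_trans ?_ (le_max_right _ _)
  -- two digits
  obtain ⟨x₀, hx₀⟩ : ∃ x₀ : Fin b, 1 / (b : ℝ) ≤ p x₀ := by
    by_contra hcon
    push Not at hcon
    have hne : (univ : Finset (Fin b)).Nonempty := ⟨⟨0, by omega⟩, mem_univ _⟩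
    have h3 := sum_lt_sum_of_nonempty hne (fun x _ => hcon x)
    rw [h1, sum_const, card_univ, Fintype.card_fin, nsmul_eq_mul, mul_one_div_cancel hb0.ne'] at h3
    exact lt_irrefl _ h3
  obtain ⟨x₁, hx₁, hne⟩ : ∃ x₁ : Fin b, η / (b : ℝ) ≤ p x₁ ∧ x₁ ≠ x₀ := by
    by_contra hcon
    push Not at hcon
    have h3 : ∑ x ∈ univ.erase x₀, p x < η := by
      have h4 : ∀ x ∈ univ.erase x₀, p x ≤ η / b := by
        intro x hx
        by_contra h5
        exact (mem_erase.1 hx).1 (hcon x (le_of_lt (not_le.1 h5)))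
      refine lt_of_le_of_lt (sum_le_card_nsmul _ _ _ h4) ?_
      rw [card_erase_of_mem (mem_univ _), card_univ, Fintype.card_fin, nsmul_eq_mul, Nat.cast_sub (by omega)]
      push_cast
      have : ((b : ℝ) - 1) * (η / b) = η - η / b := by field_simp
      rw [this]
      have : 0 < η / b := by positivity
      linarith
    have h4 : ∑ x ∈ univ.erase x₀, p x = 1 - p x₀ := by
      rw [← h1, ← add_sum_erase univ p (mem_univ x₀)]
      ring
    have := h2 x₀
    linarith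
  -- the square of the norm
  obtain ⟨a, ha⟩ : ∃ a : Fin b → ℝ, a = fun x : Fin b => 2 * π * (t * ((x : ℕ) : ℝ)) := ⟨_, rfl⟩
  have hsq : ‖∑ x, (p x : ℂ) * ex (t * (x : ℕ))‖ ^ 2 = ∑ x, ∑ y, p x * p y * Real.cos (a x - a y) := by
    have hre : (∑ x, (p x : ℂ) * ex (t * (x : ℕ))).re = ∑ x, p x * Real.cos (a x) := by
      rw [Complex.re_sum]
      refine sum_congr rfl fun x _ => ?_
      rw [Complex.re_ofReal_mul]
      congr 1
      rw [ha]
      unfold ex
      have : (2 * π * Complex.I * ((t * (x : ℕ) : ℝ) : ℂ) : ℂ) = ((2 * π * (t * (x : ℕ)) : ℝ) : ℂ) * Complex.I := by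
        push_cast
        ring
      rw [this, Complex.exp_ofReal_mul_I_re]
    have him : (∑ x, (p x : ℂ) * ex (t * (x : ℕ))).im = ∑ x, p x * Real.sin (a x) := by
      rw [Complex.im_sum]
      refine sum_congr rfl fun x _ => ?_
      rw [Complex.im_ofReal_mul]
      congr 1
      rw [ha]
      unfold ex
      have : (2 * π * Complex.I * ((t * (x : ℕ) : ℝ) : ℂ) : ℂ) = ((2 * π * (t * (x : ℕ)) : ℝ) : ℂ) * Complex.I := by
        push_cast
        ring
      rw [this, Complex.exp_ofReal_mul_I_im]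
    rw [Complex.sq_norm, Complex.normSq_apply, hre, him, sum_mul_sum, sum_mul_sum, ← sum_add_distrib]
    refine sum_congr rfl fun x _ => ?_
    rw [← sum_add_distrib]
    refine sum_congr rfl fun y _ => ?_
    rw [Real.cos_sub]
    ring
  have hone : (1 : ℝ) = ∑ x, ∑ y, p x * p y := by
    rw [← sum_mul_sum, h1, mul_one]
  have hgap : p x₁ * p x₀ * (1 - Real.cos (a x₁ - a x₀)) ≤ 1 - ‖∑ x, (p x : ℂ) * ex (t * (x : ℕ))‖ ^ 2 := by
    have e : 1 - ‖∑ x, (p x : ℂ) * ex (t * (x : ℕ))‖ ^ 2 = ∑ x, ∑ y, p x * p y * (1 - Real.cos (a x - a y)) := by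
      rw [hsq]
      conv_lhs => rw [hone]
      rw [← sum_sub_distrib]
      refine sum_congr rfl fun x _ => ?_
      rw [← sum_sub_distrib]
      refine sum_congr rfl fun y _ => ?_
      ring
    rw [e]
    have hnn : ∀ x y, 0 ≤ p x * p y * (1 - Real.cos (a x - a y)) := fun x y =>
      mul_nonneg (mul_nonneg (h0 x) (h0 y)) (by linarith [Real.cos_le_one (a x - a y)])
    refine le_trans ?_ (single_le_sum (f := fun x => ∑ y, p x * p y * (1 - Real.cos (a x - a y)))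
      (fun x _ => sum_nonneg fun y _ => hnn x y) (mem_univ x₁))
    exact single_le_sum (f := fun y => p x₁ * p y * (1 - Real.cos (a x₁ - a y))) (fun y _ => hnn x₁ y) (mem_univ x₀)
  -- the difference of the digits
  obtain ⟨Δ, hΔ⟩ : ∃ Δ : ℤ, Δ = ((x₁ : ℕ) : ℤ) - ((x₀ : ℕ) : ℤ) := ⟨_, rfl⟩
  have hΔ0 : Δ ≠ 0 := by
    intro h
    apply hne
    apply Fin.ext
    omega
  have hΔd : Δ ∣ (((b - 1).factorial : ℕ) : ℤ) := by
    have h3 : Δ.natAbs ≤ b - 1 := by
      have := x₁.2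
      have := x₀.2
      omega
    have h4 : Δ.natAbs ∣ (b - 1).factorial := Nat.dvd_factorial (Int.natAbs_pos.2 hΔ0) h3
    exact Int.natAbs_dvd.1 (Int.natCast_dvd_natCast.2 h4)
  obtain ⟨m, hm⟩ := hΔd
  have hm1 : |(m : ℝ)| ≤ ((b - 1).factorial : ℝ) := by
    have h3 : |(((b - 1).factorial : ℕ) : ℤ)| = |Δ| * |m| := by rw [hm, abs_mul]
    have h4 : 1 ≤ |Δ| := Int.one_le_abs hΔ0
    have h5 : |m| ≤ (((b - 1).factorial : ℕ) : ℤ) := by
      rw [← abs_of_nonneg (Int.natCast_nonneg ((b - 1).factorial)), h3]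
      nlinarith [abs_nonneg m]
    exact_mod_cast h5
  obtain ⟨u, hu⟩ : ∃ u : ℝ, u = |t * Δ - round (t * Δ)| := ⟨_, rfl⟩
  have hu1 : D ≤ ((b - 1).factorial : ℝ) * u := by
    rw [hD]
    refine (round_le _ (m * round (t * Δ))).trans ?_
    have e : ((b - 1).factorial : ℝ) * t - ((m * round (t * (Δ : ℝ)) : ℤ) : ℝ) = m * (t * Δ - round (t * (Δ : ℝ))) := by
      have h3 : ((b - 1).factorial : ℝ) = Δ * m := by exact_mod_cast hm
      rw [h3]
      push_cast
      ring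
    rw [e, abs_mul, ← hu]
    apply mul_le_mul_of_nonneg_right hm1
    rw [hu]
    exact abs_nonneg _
  have hcos : 8 * u ^ 2 ≤ 1 - Real.cos (a x₁ - a x₀) := by
    have h3 := cos_bound (t * Δ)
    rw [← hu] at h3
    have e : a x₁ - a x₀ = 2 * π * (t * Δ) := by
      rw [ha, hΔ]
      push_cast
      ring
    rw [e]
    exact h3
  have hu2 : D / ((b - 1).factorial : ℝ) ≤ u := by
    rw [div_le_iff₀ hF0]
    linarith
  have hpp : 1 / (b : ℝ) * (η / b) ≤ p x₁ * p x₀ := by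
    rw [mul_comm (p x₁)]
    exact mul_le_mul hx₀ hx₁ (by positivity) (h0 x₀)
  have hu3 : (D / ((b - 1).factorial : ℝ)) ^ 2 ≤ u ^ 2 := pow_le_pow_left₀ (by positivity) hu2 2
  have hkey : 2 * c ≤ 1 - ‖∑ x, (p x : ℂ) * ex (t * (x : ℕ))‖ ^ 2 := by
    refine le_trans (le_trans ?_ (mul_le_mul hpp (le_trans (mul_le_mul_of_nonneg_left hu3 (by norm_num)) hcos) (by positivity)
      (mul_nonneg (h0 _) (h0 _)))) hgap
    rw [hc]
    apply le_of_eq
    ring
  have hn0 := norm_nonneg (∑ x, (p x : ℂ) * ex (t * (x : ℕ)))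
  by_contra hcon
  push Not at hcon
  have hc1 : c ≤ 1 := by nlinarith
  nlinarith

/-- the half to the power of the step -/
lemma half_step {b : ℕ} {η : ℝ} (p : Fin b → ℝ) (h0 : ∀ x, 0 ≤ p x) (h1 : ∑ x, p x = 1)
    (h2 : ∀ x, p x ≤ 1 - η) : ∑ x, p x * (1 / 2) ^ (x : ℕ) ≤ 1 - η / 2 := by
  classical
  have h3 : ∀ x : Fin b, p x * (1 / 2) ^ (x : ℕ) ≤ p x * (1 / 2) + (if (x : ℕ) = 0 then p x * (1 / 2) else 0) := by
    intro x
    split_ifs with hx
    · rw [hx, pow_zero]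
      linarith
    · rw [add_zero]
      apply mul_le_mul_of_nonneg_left _ (h0 x)
      calc ((1 : ℝ) / 2) ^ (x : ℕ) ≤ (1 / 2) ^ 1 := pow_le_pow_of_le_one (by norm_num) (by norm_num) (by omega)
        _ = 1 / 2 := pow_one _
  refine (sum_le_sum fun x _ => h3 x).trans ?_
  rw [sum_add_distrib, ← sum_mul, h1, ← sum_filter]
  have h4 : ∑ x ∈ univ.filter (fun x : Fin b => (x : ℕ) = 0), p x * (1 / 2) ≤ (1 - η) / 2 := by
    rcases (univ.filter (fun x : Fin b => (x : ℕ) = 0)).eq_empty_or_nonempty with h5 | ⟨x₀, hx₀⟩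
    · rw [h5, sum_empty]
      have hb : 0 < b := by
        rcases Nat.eq_zero_or_pos b with hb | hb
        · subst hb
          simp at h1
        · exact hb
      have := h2 ⟨0, hb⟩
      have := h0 ⟨0, hb⟩
      linarith
    · have h5 : univ.filter (fun x : Fin b => (x : ℕ) = 0) = {x₀} := by
        ext x
        rw [mem_filter, mem_singleton] at *
        constructor
        · intro hx
          apply Fin.ext
          rw [hx.2, hx₀.2]
        · rintro rfl
          exact hx₀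
      rw [h5, sum_singleton]
      have := h2 x₀
      linarith
  linarith

/-- **random walks** -/
theorem _root_.Pool.Agent.N794.DG.Always.walk {Q : (ℕ →₀ ℝ) → Prop} (hQ : Always Q) {b : ℕ} (hb : 2 ≤ b) {η : ℝ}
    (hη : 0 < η) {κ : ℕ} (hκ : 1 ≤ κ) : ∃ k₀ : ℕ, ∀ k : ℕ, k₀ ≤ k → ∀ p : Fin k → Fin b → ℝ, Digits η p →
      ∀ c₀ : ℕ, Q (walkLaw p c₀ κ) := by
  classical
  obtain ⟨Θ, hΘ, ε, hε, n₀, h⟩ := hQ
  have hk : ∀ θ : ℝ, ∃ K : ℕ, θ ∈ Θ → ∀ k : ℕ, K ≤ k → ∀ p : Fin k → Fin b → ℝ, Digits η p →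
      ∏ j : Fin k, ‖∑ x, (p j x : ℂ) * ex (θ * κ * (x : ℕ))‖ ≤ ε := by
    intro θ
    by_cases h0 : θ ∈ Θ
    · obtain ⟨ρ, hρ0, hρ1, hρ⟩ := step hb hη ((hΘ θ h0).mul_natCast (m := κ) (by omega))
      obtain ⟨K, hK⟩ := exists_pow_lt_of_lt_one hε hρ1
      refine ⟨K, fun _ k hk p hp => ?_⟩
      calc ∏ j : Fin k, ‖∑ x, (p j x : ℂ) * ex (θ * κ * (x : ℕ))‖ ≤ ∏ _j : Fin k, ρ :=
            prod_le_prod (fun _ _ => norm_nonneg _) fun j _ => hρ (p j) (hp.nonneg j) (hp.sum_one j) (hp.le j)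
        _ = ρ ^ k := by rw [prod_const, card_univ, Fintype.card_fin]
        _ ≤ ρ ^ K := pow_le_pow_of_le_one hρ0 hρ1.le hk
        _ ≤ ε := hK.le
    · exact ⟨0, fun h1 => absurd h1 h0⟩
  choose K hK using hk
  have hρ1 : max 0 (1 - η / 2) < 1 := max_lt one_pos (by linarith)
  have hρ0 : 0 ≤ max 0 (1 - η / 2) := le_max_left _ _
  obtain ⟨M, hM⟩ := exists_pow_lt_of_lt_one (show 0 < ε / 2 ^ n₀ by positivity) hρ1
  refine ⟨max M (Θ.sup K), fun k hk p hp c₀ => h _ ?_⟩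
  refine law_near (fun v _ => prod_nonneg fun j _ => hp.nonneg j _) ?_ _ (fun θ hθ => ?_) ?_
  · have h4 : ∑ v : Fin k → Fin b, ∏ j, p j (v j) = ∏ j : Fin k, ∑ x : Fin b, p j x := by
      rw [prod_univ_sum, Fintype.piFinset_univ]
    rw [h4, prod_congr rfl fun j _ => hp.sum_one j, prod_const_one]
  · have h4 : ∑ v : Fin k → Fin b, ((∏ j, p j (v j) : ℝ) : ℂ) * ex (θ * ((c₀ + κ * ∑ j, (v j : ℕ) : ℕ) : ℝ)) =
        ex (θ * c₀) * ∏ j : Fin k, ∑ x, (p j x : ℂ) * ex (θ * κ * (x : ℕ)) := by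
      rw [prod_univ_sum, Fintype.piFinset_univ, mul_sum]
      refine sum_congr rfl fun v _ => ?_
      have e : θ * ((c₀ + κ * ∑ j, (v j : ℕ) : ℕ) : ℝ) = θ * c₀ + ∑ j, θ * κ * (v j : ℕ) := by
        push_cast
        rw [mul_add, ← mul_sum]
        ring
      rw [e, ex_add, ex_sum, prod_mul_distrib]
      push_cast
      ring
    rw [h4, norm_mul, norm_ex, one_mul, norm_prod]
    exact hK θ hθ k ((le_sup hθ).trans ((le_max_right _ _).trans hk)) p hp
  · have h1 : ∀ v : Fin k → Fin b, (if c₀ + κ * ∑ j, (v j : ℕ) < n₀ then ∏ j, p j (v j) else 0) ≤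
        2 ^ n₀ * ∏ j, (p j (v j) * (1 / 2) ^ (v j : ℕ)) := by
      intro v
      have h0 : 0 ≤ ∏ j, p j (v j) := prod_nonneg fun j _ => hp.nonneg j _
      rw [prod_mul_distrib, prod_pow_eq_pow_sum]
      split_ifs with hv
      · have h2 : ∑ j, (v j : ℕ) ≤ n₀ := by
          have : ∑ j, (v j : ℕ) ≤ κ * ∑ j, (v j : ℕ) := Nat.le_mul_of_pos_left _ (by omega)
          omega
        have h3 : (1 : ℝ) ≤ 2 ^ n₀ * (1 / 2) ^ (∑ j, (v j : ℕ)) := by
          rw [one_div, inv_pow, ← div_eq_mul_inv, one_le_div (by positivity)]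
          exact pow_le_pow_right₀ (by norm_num) h2
        calc ∏ j, p j (v j) = (∏ j, p j (v j)) * 1 := by ring
          _ ≤ (∏ j, p j (v j)) * (2 ^ n₀ * (1 / 2) ^ (∑ j, (v j : ℕ))) := mul_le_mul_of_nonneg_left h3 h0
          _ = _ := by ring
      · positivity
    refine (sum_le_sum fun v _ => h1 v).trans ?_
    rw [← mul_sum]
    have h4 : ∑ v : Fin k → Fin b, ∏ j, (p j (v j) * (1 / 2) ^ (v j : ℕ)) =
        ∏ j : Fin k, ∑ x : Fin b, p j x * (1 / 2) ^ (x : ℕ) := by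
      rw [prod_univ_sum, Fintype.piFinset_univ]
    rw [h4]
    have h5 : ∏ j : Fin k, ∑ x : Fin b, p j x * (1 / 2) ^ (x : ℕ) ≤ (max 0 (1 - η / 2)) ^ k := by
      calc ∏ j : Fin k, ∑ x : Fin b, p j x * (1 / 2) ^ (x : ℕ) ≤ ∏ _j : Fin k, max 0 (1 - η / 2) :=
            prod_le_prod (fun j _ => sum_nonneg fun x _ => mul_nonneg (hp.nonneg j x) (by positivity))
              fun j _ => (half_step (p j) (hp.nonneg j) (hp.sum_one j) (hp.le j)).trans (le_max_right _ _)
        _ = _ := by rw [prod_const, card_univ, Fintype.card_fin]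
    have h6 : (max 0 (1 - η / 2)) ^ k ≤ (max 0 (1 - η / 2)) ^ M :=
      pow_le_pow_of_le_one hρ0 hρ1.le ((le_max_left _ _).trans hk)
    have h7 := mul_le_mul_of_nonneg_left ((h5.trans h6).trans hM.le) (show (0 : ℝ) ≤ 2 ^ n₀ by positivity)
    refine h7.trans (le_of_eq ?_)
    field_simp

/-- **binomial laws** -/
theorem _root_.Pool.Agent.N794.DG.Always.binomial {Q : (ℕ →₀ ℝ) → Prop} (hQ : Always Q) {η : ℝ}
    (hη : 0 < η) {κ : ℕ} (hκ : 1 ≤ κ) : ∃ k₀ : ℕ, ∀ k : ℕ, k₀ ≤ k → ∀ q : ℝ, η ≤ q → q ≤ 1 - η →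
      ∀ c₀ : ℕ, Q (binLaw k q c₀ κ) := by
  classical
  obtain ⟨Θ, hΘ, ε, hε, n₀, h⟩ := hQ
  have hk : ∀ θ : ℝ, ∃ K : ℕ, θ ∈ Θ → ∀ k : ℕ, K ≤ k → ∀ q : ℝ, η ≤ q → q ≤ 1 - η →
      ‖(q : ℂ) * ex (θ * κ) + ((1 - q : ℝ) : ℂ)‖ ^ k ≤ ε := by
    intro θ
    by_cases h0 : θ ∈ Θ
    · obtain ⟨ρ, hρ0, hρ1, hρ⟩ := step (le_refl 2) hη ((hΘ θ h0).mul_natCast (m := κ) (by omega))
      obtain ⟨K, hK⟩ := exists_pow_lt_of_lt_one hε hρ1
      refine ⟨K, fun _ k hk q hq0 hq1 => ?_⟩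
      have h1 := hρ ![1 - q, q] (by
        intro x
        fin_cases x
        · simp
          linarith
        · simp
          linarith) (by simp) (by
        intro x
        fin_cases x
        · simp
          linarith
        · simp
          linarith)
      rw [Fin.sum_univ_two] at h1
      simp only [Matrix.cons_val_zero, Matrix.cons_val_one, Fin.val_zero, Fin.val_one, Nat.cast_zero, Nat.cast_one,
        mul_zero, mul_one, ex_zero] at h1
      rw [add_comm] at h1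
      calc ‖(q : ℂ) * ex (θ * κ) + ((1 - q : ℝ) : ℂ)‖ ^ k ≤ ρ ^ k := pow_le_pow_left₀ (norm_nonneg _) h1 k
        _ ≤ ρ ^ K := pow_le_pow_of_le_one hρ0 hρ1.le hk
        _ ≤ ε := hK.le
    · exact ⟨0, fun h1 => absurd h1 h0⟩
  choose K hK using hk
  have hρ1 : max 0 (1 - η / 2) < 1 := max_lt one_pos (by linarith)
  have hρ0 : 0 ≤ max 0 (1 - η / 2) := le_max_left _ _
  obtain ⟨M, hM⟩ := exists_pow_lt_of_lt_one (show 0 < ε / 2 ^ n₀ by positivity) hρ1
  refine ⟨max M (Θ.sup K), fun k hk q hq0 hq1 c₀ => h _ ?_⟩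
  have hq2 : 0 ≤ 1 - q := by linarith
  have hq3 : 0 ≤ q := by linarith
  refine law_near (fun i _ => by positivity) ?_ _ (fun θ hθ => ?_) ?_
  · rw [← add_pow]
    rw [add_sub_cancel, one_pow]
  · have h4 : ∑ i ∈ range (k + 1), ((q ^ i * (1 - q) ^ (k - i) * (k.choose i : ℝ) : ℝ) : ℂ) *
        ex (θ * ((c₀ + κ * i : ℕ) : ℝ)) = ex (θ * c₀) * ((q : ℂ) * ex (θ * κ) + ((1 - q : ℝ) : ℂ)) ^ k := by
      rw [add_pow, mul_sum]
      refine sum_congr rfl fun i _ => ?_
      have e : θ * ((c₀ + κ * i : ℕ) : ℝ) = θ * c₀ + ∑ _j ∈ range i, θ * κ := by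
        rw [sum_const, card_range, nsmul_eq_mul]
        push_cast
        ring
      rw [e, ex_add, ex_sum, prod_const, card_range]
      push_cast
      ring
    rw [h4, norm_mul, norm_ex, one_mul, norm_pow]
    exact hK θ hθ k ((le_sup hθ).trans ((le_max_right _ _).trans hk)) q hq0 hq1
  · have h1 : ∀ i ∈ range (k + 1), (if c₀ + κ * i < n₀ then q ^ i * (1 - q) ^ (k - i) * (k.choose i : ℝ) else 0) ≤
        2 ^ n₀ * ((q / 2) ^ i * (1 - q) ^ (k - i) * (k.choose i : ℝ)) := by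
      intro i _
      split_ifs with hv
      · have h2 : i ≤ n₀ := by
          have : i ≤ κ * i := Nat.le_mul_of_pos_left _ (by omega)
          omega
        have h3 : (1 : ℝ) ≤ 2 ^ n₀ * (1 / 2) ^ i := by
          rw [one_div, inv_pow, ← div_eq_mul_inv, one_le_div (by positivity)]
          exact pow_le_pow_right₀ (by norm_num) h2
        have h0 : 0 ≤ q ^ i * (1 - q) ^ (k - i) * (k.choose i : ℝ) := by positivity
        calc q ^ i * (1 - q) ^ (k - i) * (k.choose i : ℝ) = q ^ i * (1 - q) ^ (k - i) * (k.choose i : ℝ) * 1 := by ring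
          _ ≤ q ^ i * (1 - q) ^ (k - i) * (k.choose i : ℝ) * (2 ^ n₀ * (1 / 2) ^ i) := mul_le_mul_of_nonneg_left h3 h0
          _ = _ := by
            rw [div_eq_mul_one_div q 2, mul_pow]
            ring
      · positivity
    refine (sum_le_sum h1).trans ?_
    rw [← mul_sum, ← add_pow]
    have h5 : (q / 2 + (1 - q)) ^ k ≤ (max 0 (1 - η / 2)) ^ k :=
      pow_le_pow_left₀ (by linarith) (le_trans (by linarith) (le_max_right _ _)) k
    have h6 : (max 0 (1 - η / 2)) ^ k ≤ (max 0 (1 - η / 2)) ^ M :=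
      pow_le_pow_of_le_one hρ0 hρ1.le ((le_max_left _ _).trans hk)
    have h7 := mul_le_mul_of_nonneg_left ((h5.trans h6).trans hM.le) (show (0 : ℝ) ≤ 2 ^ n₀ by positivity)
    refine h7.trans (le_of_eq ?_)
    field_simp

/-- **progressions** with a fixed difference, uniformly in the first term -/
theorem _root_.Pool.Agent.N794.DG.Always.progression {Q : (ℕ →₀ ℝ) → Prop} (hQ : Always Q) {κ : ℕ} (hκ : 1 ≤ κ) :
    ∃ L₀ : ℕ, ∀ L : ℕ, L₀ ≤ L → ∀ c₀ : ℕ, Q (progLaw L c₀ κ) := by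
  classical
  obtain ⟨Θ, hΘ, ε, hε, n₀, h⟩ := hQ
  have hk : ∀ θ : ℝ, ∃ K : ℕ, θ ∈ Θ → ∀ L : ℕ, K ≤ L → ‖∑ i ∈ range L, ex (θ * κ) ^ i‖ ≤ ε * L := by
    intro θ
    by_cases h0 : θ ∈ Θ
    · have hirr := (hΘ θ h0).mul_natCast (m := κ) (by omega)
      have hne : ex (θ * κ) ≠ 1 := by
        intro h1
        unfold ex at h1
        rw [Complex.exp_eq_one_iff] at h1
        obtain ⟨n, hn⟩ := h1
        have h2 : (2 * π * Complex.I : ℂ) ≠ 0 := Complex.two_pi_I_ne_zero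
        have h3 : ((θ * κ : ℝ) : ℂ) = n := by
          apply mul_left_cancel₀ h2
          rw [hn]
          ring
        exact hirr.ne_int n (by exact_mod_cast h3)
      have hpos : 0 < ‖ex (θ * κ) - 1‖ := norm_pos_iff.2 (sub_ne_zero.2 hne)
      obtain ⟨K, hK⟩ := exists_nat_ge (2 / ‖ex (θ * κ) - 1‖ / ε)
      refine ⟨K, fun _ L hL => ?_⟩
      rw [geom_sum_eq hne, norm_div]
      have h2 : ‖ex (θ * κ) ^ L - 1‖ ≤ 2 := by
        refine (norm_sub_le _ _).trans ?_
        rw [norm_pow, norm_ex, one_pow, norm_one]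
        norm_num
      have h3 : 2 / ‖ex (θ * κ) - 1‖ ≤ ε * L := by
        rw [div_le_iff₀ hε] at hK
        have h4 : (K : ℝ) ≤ L := by exact_mod_cast hL
        nlinarith
      exact (div_le_div_of_nonneg_right h2 hpos.le).trans h3
    · exact ⟨0, fun h1 => absurd h1 h0⟩
  choose K hK using hk
  obtain ⟨M, hM⟩ := exists_nat_ge ((n₀ : ℝ) / ε)
  refine ⟨max (M + 1) (Θ.sup K), fun L hL c₀ => h _ ?_⟩
  have hL1 : M + 1 ≤ L := (le_max_left _ _).trans hL
  have hL0 : (0 : ℝ) < L := by exact_mod_cast (by omega : 0 < L)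
  refine law_near (fun _ _ => by positivity) ?_ _ (fun θ hθ => ?_) ?_
  · rw [sum_const, card_range, nsmul_eq_mul, mul_one_div_cancel hL0.ne']
  · have h4 : ∑ i ∈ range L, ((1 / (L : ℝ) : ℝ) : ℂ) * ex (θ * ((c₀ + κ * i : ℕ) : ℝ)) =
        ((1 / (L : ℝ) : ℝ) : ℂ) * (ex (θ * c₀) * ∑ i ∈ range L, ex (θ * κ) ^ i) := by
      rw [mul_sum, mul_sum]
      refine sum_congr rfl fun i _ => ?_
      have e : θ * ((c₀ + κ * i : ℕ) : ℝ) = θ * c₀ + ∑ _j ∈ range i, θ * κ := by
        rw [sum_const, card_range, nsmul_eq_mul]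
        push_cast
        ring
      rw [e, ex_add, ex_sum, prod_const, card_range]
    rw [h4, norm_mul, norm_mul, norm_ex, one_mul, Complex.norm_real, Real.norm_of_nonneg (by positivity)]
    have h5 := hK θ hθ L ((le_sup hθ).trans ((le_max_right _ _).trans hL))
    rw [one_div, inv_mul_le_iff₀ hL0]
    linarith
  · rw [← sum_filter, sum_const, nsmul_eq_mul]
    have h6 : ((range L).filter fun i => c₀ + κ * i < n₀).card ≤ n₀ := by
      have h7 : (range L).filter (fun i => c₀ + κ * i < n₀) ⊆ range n₀ := by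
        intro i hi
        rw [mem_filter] at hi
        rw [mem_range]
        have : i ≤ κ * i := Nat.le_mul_of_pos_left _ (by omega)
        omega
      have h8 := card_le_card h7
      rwa [card_range] at h8
    have h9 : (((range L).filter fun i => c₀ + κ * i < n₀).card : ℝ) ≤ n₀ := by exact_mod_cast h6
    rw [mul_one_div, div_le_iff₀ hL0]
    have h10 : (M : ℝ) + 1 ≤ L := by exact_mod_cast hL1
    rw [div_le_iff₀ hε] at hM
    nlinarith

/-- **independent perturbations** -/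
theorem _root_.Pool.Agent.N794.DG.Always.add {Q : (ℕ →₀ ℝ) → Prop} (hQ : Always Q) :
    Always fun μ => ∀ ν : ℕ →₀ ℝ, IsProb ν → Q (addLaw μ ν) := by
  classical
  obtain ⟨Θ, hΘ, ε, hε, n₀, h⟩ := hQ
  refine ⟨Θ, hΘ, ε, hε, n₀, fun μ hμ ν hν => h _ ?_⟩
  refine law_near (fun i _ => mul_nonneg (hμ.nonneg _) (hν.nonneg _)) ?_ _ (fun θ hθ => ?_) ?_
  · rw [sum_product]
    have : ∀ x ∈ μ.support, ∑ y ∈ ν.support, μ x * ν y = μ x := by
      intro x _
      rw [← mul_sum, hν.sum_one, mul_one]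
    rw [sum_congr rfl this, hμ.sum_one]
  · have h4 : ∑ i ∈ μ.support ×ˢ ν.support, ((μ i.1 * ν i.2 : ℝ) : ℂ) * ex (θ * ((i.1 + i.2 : ℕ) : ℝ)) =
        (∑ m ∈ μ.support, (μ m : ℂ) * ex (θ * m)) * ∑ m ∈ ν.support, (ν m : ℂ) * ex (θ * m) := by
      rw [sum_mul_sum, sum_product]
      refine sum_congr rfl fun x _ => sum_congr rfl fun y _ => ?_
      have e : θ * ((x + y : ℕ) : ℝ) = θ * x + θ * y := by
        push_cast
        ring
      simp only []
      rw [e, ex_add]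
      push_cast
      ring
    rw [h4, norm_mul]
    have h5 : ‖∑ m ∈ ν.support, (ν m : ℂ) * ex (θ * m)‖ ≤ 1 := by
      refine (norm_sum_le _ _).trans (le_of_eq ?_)
      rw [← hν.sum_one]
      refine sum_congr rfl fun x _ => ?_
      rw [norm_mul, norm_ex, mul_one, Complex.norm_real, Real.norm_of_nonneg (hν.nonneg x)]
    calc _ ≤ ε * 1 := mul_le_mul (hμ.small θ hθ) h5 (norm_nonneg _) hε.le
      _ = ε := mul_one _
  · rw [sum_product]
    have h1 : ∀ x ∈ μ.support, ∑ y ∈ ν.support, (if x + y < n₀ then μ x * ν y else 0) ≤ if x < n₀ then μ x else 0 := by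
      intro x _
      split_ifs with hx
      · calc ∑ y ∈ ν.support, (if x + y < n₀ then μ x * ν y else 0) ≤ ∑ y ∈ ν.support, μ x * ν y := by
              apply sum_le_sum
              intro y _
              split_ifs
              · exact le_rfl
              · exact mul_nonneg (hμ.nonneg _) (hν.nonneg _)
          _ = μ x := by rw [← mul_sum, hν.sum_one, mul_one]
      · apply le_of_eq
        apply sum_eq_zero
        intro y _
        rw [if_neg (by omega)]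
    refine (sum_le_sum h1).trans ?_
    rw [← sum_filter]
    refine le_trans (sum_le_sum_of_subset_of_nonneg ?_ fun m _ _ => hμ.nonneg m) hμ.few
    intro m hm
    exact mem_range.2 (mem_filter.1 hm).2

end Pool.Agent.Run7.h388.RM
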