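import Pool.Agent.N794.DG.Cov
import Pool.Agent.Run7.h388.RM.Walk

/-!
# Random integers with small exponential sums: what is covered
-/

set_option autoImplicit false

namespace Pool.Agent.Run7.h388.RM

open Pool.Agent.N794.DG

/-- **What is covered by `Always`.** (1) `Covers` of `Pool.Agent.N794.DG.Cov`: all large terms of the sequences of random
integers for which the probability of every single integer and the exponential sums at every irrational frequency tend to
zero; random integers with `k ≥ k₀` independent digits; random members of families of residues with small Fourier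
coefficients, among them very thin ones.

(2) The positions of random walks: `c₀ + κ (v₁ + ... + v_k)` with `k ≥ k₀` independent steps in `{0, ..., b - 1}`, none of
which has a value with a probability above `1 - η`.

(3) The binomial laws: `c₀ + κ i`, where `i` is binomial with `k ≥ k₀` trials and a probability of success in `[η, 1 - η]`.

(4) Random members of all progressions with a given difference `κ` (for instance of all intervals) of length `L ≥ L₀`,
where `L₀` does not depend on the first term.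

(5) Whatever is true for all random integers in the sense of `Always` stays true if an ARBITRARY independent random natural
number is added. -/
def CoversMore : Prop :=
  Covers ∧
  (∀ Q : (ℕ →₀ ℝ) → Prop, Always Q → ∀ b : ℕ, 2 ≤ b → ∀ η : ℝ, 0 < η → ∀ κ : ℕ, 1 ≤ κ → ∃ k₀ : ℕ, ∀ k : ℕ, k₀ ≤ k →
    ∀ p : Fin k → Fin b → ℝ, Digits η p → ∀ c₀ : ℕ, Q (walkLaw p c₀ κ)) ∧
  (∀ Q : (ℕ →₀ ℝ) → Prop, Always Q → ∀ η : ℝ, 0 < η → ∀ κ : ℕ, 1 ≤ κ → ∃ k₀ : ℕ, ∀ k : ℕ, k₀ ≤ k →
    ∀ q : ℝ, η ≤ q → q ≤ 1 - η → ∀ c₀ : ℕ, Q (binLaw k q c₀ κ)) ∧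
  (∀ Q : (ℕ →₀ ℝ) → Prop, Always Q → ∀ κ : ℕ, 1 ≤ κ → ∃ L₀ : ℕ, ∀ L : ℕ, L₀ ≤ L → ∀ c₀ : ℕ, Q (progLaw L c₀ κ)) ∧
  (∀ Q : (ℕ →₀ ℝ) → Prop, Always Q → Always fun μ => ∀ ν : ℕ →₀ ℝ, IsProb ν → Q (addLaw μ ν))

theorem coversMore : CoversMore :=
  ⟨covers, fun _ hQ _ hb _ hη _ hκ => hQ.walk hb hη hκ, fun _ hQ _ hη _ hκ => hQ.binomial hη hκ,
    fun _ hQ _ hκ => hQ.progression hκ, fun _ hQ => hQ.add⟩

end Pool.Agent.Run7.h388.RM
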