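import Pool.Agent.Run7.h388.RM.Sharp

/-!
# Many numbers of points at once with a large probability
-/

set_option autoImplicit false

namespace Pool.Agent.Run7.h388.RM

open Finset Filter
open Pool.Agent.N141.SG Pool.Agent.N794.DG

/-- the numbers of points which are covered simultaneously with the probability `0.815` -/
def Most (n : ℕ) : Prop := n = 10 ∨ n = 11 ∨ n = 13 ∨ n = 15 ∨ n = 21 ∨ 37 ≤ n ∨ IsSquare n

/-- several numbers of points and the numbers without open degrees at once -/
theorem always_set (S : Finset ℕ) (hS : ∀ n ∈ S, 10 ≤ n) {c : ℝ} (hc : c < 1 - ∑ n ∈ S, badS n) :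
    Always fun μ => c ≤ meas μ fun m => 1 ≤ m ∧ ∀ n, 10 ≤ n → (n ∈ S ∨ 37 ≤ n ∨ n = 13 ∨ n = 21 ∨ IsSquare n) → Ex n m := by
  classical
  have h := always_several (insert 0 S) (fun n m => if n = 0 then 1 ≤ m else Ex n m) (fun n => if n = 0 then 0 else badS n)
    (fun n hn δ hδ => ?_) (c := c) ?_
  · refine h.mono fun μ h0 hμ => hμ.trans (meas_mono h0 fun m hm => ?_)
    have h1 : 1 ≤ m := by
      have := hm 0 (mem_insert_self _ _)
      simpa using this
    refine ⟨h1, fun n hn hn' => ?_⟩
    rcases hn' with hn' | hn'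
    · have := hm n (mem_insert_of_mem hn')
      rwa [if_neg (by omega)] at this
    · by_contra hE
      obtain ⟨d', hd⟩ := open_of hn h1 hE
      exact hd.1 hn'
  · rcases mem_insert.1 hn with rfl | hn
    · simp only [if_true, zero_add]
      exact always_none hδ 1 _ (fun m hm h => h hm)
    · have h10 := hS n hn
      have e : n ≠ 0 := by omega
      simp only [if_neg e]
      exact always_sharp h10 hδ
  · have h0 : (0 : ℕ) ∉ S := fun h0 => by
      have := hS 0 h0
      omega
    rw [sum_insert h0, if_pos rfl, zero_add]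
    have e : ∑ n ∈ S, (if n = 0 then (0 : ℝ) else badS n) = ∑ n ∈ S, badS n := by
      refine sum_congr rfl fun n hn => ?_
      have h10 := hS n hn
      have hne : n ≠ 0 := by omega
      rw [if_neg hne]
    rw [e]
    exact hc

/-- **most numbers of points at once** -/
theorem always_most : Always fun μ => 0.815 ≤ meas μ fun m => 1 ≤ m ∧ ∀ n, 10 ≤ n → Most n → Ex n m := by
  obtain ⟨v10, v11, -, -, v15⟩ := badS_vals
  have h := always_set {10, 11, 15} (fun n hn => by
    simp only [mem_insert, mem_singleton] at hn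
    omega) (c := 0.815) (by
      have e : ∑ n ∈ ({10, 11, 15} : Finset ℕ), badS n = badS 10 + (badS 11 + badS 15) := by
        rw [sum_insert (by decide), sum_pair (by norm_num)]
      rw [e]
      linarith)
  refine h.mono fun μ h0 hμ => hμ.trans (meas_mono h0 fun m hm => ⟨hm.1, fun n hn hmost => hm.2 n hn ?_⟩)
  rcases hmost with h | h | h | h | h | h | h
  · exact Or.inl (by rw [h]; decide)
  · exact Or.inl (by rw [h]; decide)
  · exact Or.inr (Or.inr (Or.inl h))
  · exact Or.inl (by rw [h]; decide)
  · exact Or.inr (Or.inr (Or.inr (Or.inl h)))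
  · exact Or.inr (Or.inl h)
  · exact Or.inr (Or.inr (Or.inr (Or.inr h)))

end Pool.Agent.Run7.h388.RM
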