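import Pool.Agent.N794.DG.Fat
import Pool.Agent.N141.SG.Near

/-!
# Near-uniform vectors of multiplicities with a random sum
-/

set_option autoImplicit false

namespace Pool.Agent.Run7.h388.RM

open Finset Filter
open Pool.Agent.N141.SG Pool.Agent.N794.DG
open Pool.Agent.TH885.NW (loW upW win_len)

/-- **near-uniform vectors with a random sum** -/
theorem always_near {n : ℕ} (hn : 10 ≤ n) {δ : ℝ} (hδ : 0 < δ) :
    Always fun μ => meas μ (fun W => ¬ GoodN n W) ≤ badN n + δ := by
  classical
  have hs3 := three_lt hn
  by_cases hsq : IsSquare n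
  · have e : badN n = 0 := by
      unfold badN
      rw [if_pos hsq]
    rw [e, zero_add]
    exact always_none hδ 1 _ (fun m _ hbad => hbad (good_sq hn hsq m))
  · have hirr : Irrational (√(n : ℝ))⁻¹ := (irrational_sqrt_natCast_iff.2 hsq).inv
    obtain ⟨g1, g2, g3⟩ := win_len hn
    have e : badN n = loW n / 2 - (-(upW n / 2)) := by
      unfold badN loW upW
      rw [if_neg hsq]
      ring
    rw [e]
    exact always_arc hirr ((√(n : ℝ) - 3) / 2) (by linarith) hδ 1 _ (fun m _ hbad => window_near hn hbad)

end Pool.Agent.Run7.h388.RM
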