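import Pool.Agent.Run7.h388.RM.DegA

/-!
# Random degrees: several numbers of points at once
-/

set_option autoImplicit false

namespace Pool.Agent.Run7.h388.RM

open Finset Filter
open Pool.Agent.N141.SG Pool.Agent.N794.DG
open Pool.Agent.Results.MP_d03834_ag.EffectiveEveryField (Open generic)

theorem badDeg_le {n : ℕ} (hn : 10 ≤ n) : badDeg n ≤ 1 - 3 / √(n : ℝ) := by
  classical
  have hs3 := three_lt hn
  have hs0 : 0 < √(n : ℝ) := by linarith
  have hs1 : 0 < √(n : ℝ) + 3 := by linarith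
  have e : 1 - 3 / √(n : ℝ) = (2 * (√(n : ℝ) - 3)) / (2 * √(n : ℝ)) := by field_simp
  rw [e]
  unfold badDeg
  split_ifs with h1 h2
  · apply div_nonneg _ (by positivity)
    linarith
  · rw [div_le_div_iff₀ (by positivity) (by positivity)]
    have h3 : (√(n : ℝ) - 3) ^ 2 ≤ 2 * (√(n : ℝ) - 3) * (√(n : ℝ) + 3) := by nlinarith
    have h4 := mul_le_mul_of_nonneg_right h3 (by positivity : 0 ≤ 2 * √(n : ℝ))
    linarith
  · apply div_le_div_of_nonneg_right _ (by positivity)
    have h3 := min_le_left (√(n : ℝ) - 3) (2 / 3 + 9 / (4 * √(n : ℝ)))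
    have h4 := min_le_left (√(n : ℝ) - 3) (2 / 3 + 1 / (4 * √(n : ℝ)))
    linarith

theorem badDeg_odd {n : ℕ} (h : n = 11 ∨ n = 15) :
    badDeg n = (√(n : ℝ) - 3) ^ 2 / (2 * √(n : ℝ) * (√(n : ℝ) + 3)) := by
  unfold badDeg
  rw [if_neg (not_free h), if_pos h]

theorem badDeg_lt {n : ℕ} (hn : 10 ≤ n) : badDeg n < 0.24 := by
  classical
  have hs3 := three_lt hn
  have hs0 : 0 < √(n : ℝ) := by linarith
  have hs1 : 0 < √(n : ℝ) + 3 := by linarith
  unfold badDeg
  split_ifs with h1 h2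
  · norm_num
  · have h4 := lt_four h2
    rw [div_lt_iff₀ (by positivity)]
    nlinarith
  · exact window_lt hs3

/-- the other numbers of points up to eighteen: the minimum at the upper end of the window -/
theorem badDeg_min {n : ℕ} (hn : 10 ≤ n) (h1 : ¬ (37 ≤ n ∨ n = 13 ∨ n = 21 ∨ IsSquare n)) (h2 : ¬ (n = 11 ∨ n = 15)) :
    badDeg n ≤ (√(n : ℝ) - 3 + (2 / 3 + 1 / (4 * √(n : ℝ)))) / (2 * √(n : ℝ)) := by
  have hs3 := three_lt hn
  have hs0 : 0 < √(n : ℝ) := by linarith
  unfold badDeg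
  rw [if_neg h1, if_neg h2]
  apply div_le_div_of_nonneg_right _ (by positivity)
  have h3 := min_le_left (√(n : ℝ) - 3) (2 / 3 + 9 / (4 * √(n : ℝ)))
  have h4 := min_le_right (√(n : ℝ) - 3) (2 / 3 + 1 / (4 * √(n : ℝ)))
  linarith

/-- the minimum at both ends of the window -/
theorem badDeg_min' {n : ℕ} (hn : 10 ≤ n) (h1 : ¬ (37 ≤ n ∨ n = 13 ∨ n = 21 ∨ IsSquare n)) (h2 : ¬ (n = 11 ∨ n = 15)) :
    badDeg n ≤ (4 / 3 + 10 * (1 / (4 * √(n : ℝ)))) / (2 * √(n : ℝ)) := by
  have hs3 := three_lt hn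
  have hs0 : 0 < √(n : ℝ) := by linarith
  unfold badDeg
  rw [if_neg h1, if_neg h2]
  apply div_le_div_of_nonneg_right _ (by positivity)
  have h3 := min_le_right (√(n : ℝ) - 3) (2 / 3 + 9 / (4 * √(n : ℝ)))
  have h4 := min_le_right (√(n : ℝ) - 3) (2 / 3 + 1 / (4 * √(n : ℝ)))
  have h5 : 9 / (4 * √(n : ℝ)) = 9 * (1 / (4 * √(n : ℝ))) := by ring
  linarith

theorem badDeg_vals : badDeg 10 < 0.05132 ∧ badDeg 11 < 0.0024 ∧ badDeg 12 < 0.13398 ∧ badDeg 14 < 0.19822 ∧
    badDeg 15 < 0.01432 ∧ badDeg 17 < 0.2244 ∧ badDeg 18 < 0.2266 := by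
  refine ⟨?_, ?_, ?_, ?_, ?_, ?_, ?_⟩
  · exact lt_of_le_of_lt (badDeg_le (by norm_num))
      (root_num (by norm_num) (s := 3.16228) (by norm_num) (by norm_num) (by norm_num) (by norm_num))
  · rw [badDeg_odd (Or.inl rfl)]
    have h1 : √((11 : ℕ) : ℝ) < 3.3167 := by
      rw [Real.sqrt_lt' (by norm_num)]
      norm_num
    have h2 : 3.3166 < √((11 : ℕ) : ℝ) := by
      apply Real.lt_sqrt_of_sq_lt
      norm_num
    rw [div_lt_iff₀ (by positivity)]
    nlinarith
  · exact lt_of_le_of_lt (badDeg_le (by norm_num))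
      (root_num (by norm_num) (s := 3.46411) (by norm_num) (by norm_num) (by norm_num) (by norm_num))
  · exact lt_of_le_of_lt (badDeg_le (by norm_num))
      (root_num (by norm_num) (s := 3.74166) (by norm_num) (by norm_num) (by norm_num) (by norm_num))
  · rw [badDeg_odd (Or.inr rfl)]
    have h1 : √((15 : ℕ) : ℝ) < 3.873 := by
      rw [Real.sqrt_lt' (by norm_num)]
      norm_num
    have h2 : 3.8729 < √((15 : ℕ) : ℝ) := by
      apply Real.lt_sqrt_of_sq_lt
      norm_num
    rw [div_lt_iff₀ (by positivity)]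
    nlinarith
  · have h1 : √((17 : ℕ) : ℝ) < 4.12311 := by
      rw [Real.sqrt_lt' (by norm_num)]
      norm_num
    have h2 : 4.1231 < √((17 : ℕ) : ℝ) := by
      apply Real.lt_sqrt_of_sq_lt
      norm_num
    have h0 : ¬ IsSquare 17 := by
      rintro ⟨k, hk⟩
      have : k ≤ 5 := by nlinarith
      interval_cases k <;> omega
    refine lt_of_le_of_lt (badDeg_min (by norm_num) ?_ (by norm_num)) ?_
    · rintro (h | h | h | h)
      · omega
      · omega
      · omega
      · exact h0 h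
    · have h3 : 1 / (4 * √((17 : ℕ) : ℝ)) ≤ 0.06064 := by
        rw [div_le_iff₀ (by positivity)]
        linarith
      rw [div_lt_iff₀ (by positivity)]
      linarith
  · have h1 : √((18 : ℕ) : ℝ) < 4.24265 := by
      rw [Real.sqrt_lt' (by norm_num)]
      norm_num
    have h2 : 4.24264 < √((18 : ℕ) : ℝ) := by
      apply Real.lt_sqrt_of_sq_lt
      norm_num
    have h0 : ¬ IsSquare 18 := by
      rintro ⟨k, hk⟩
      have : k ≤ 5 := by nlinarith
      interval_cases k <;> omega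
    refine lt_of_le_of_lt (badDeg_min' (by norm_num) ?_ (by norm_num)) ?_
    · rintro (h | h | h | h)
      · omega
      · omega
      · omega
      · exact h0 h
    · have h3 : 1 / (4 * √((18 : ℕ) : ℝ)) ≤ 0.05893 := by
        rw [div_le_iff₀ (by positivity)]
        linarith
      rw [div_lt_iff₀ (by positivity)]
      linarith

/-- the numbers of points without open degrees -/
def Free (n : ℕ) : Prop := 37 ≤ n ∨ n = 13 ∨ n = 21 ∨ IsSquare n

/-- **several numbers of points at once** -/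
theorem always_joint (S : Finset ℕ) (hS : ∀ n ∈ S, 10 ≤ n) {c : ℝ} (hc : c < 1 - ∑ n ∈ S, badDeg n) :
    Always fun μ => c ≤ meas μ fun d => ∀ n, n ∈ S ∨ Free n → DegOk n d := by
  refine (always_several S DegOk badDeg (fun n hn δ hδ => always_degOk (hS n hn) hδ) hc).mono fun μ h0 hμ =>
    hμ.trans (meas_mono h0 fun d hd n hn => ?_)
  rcases hn with hn | hn
  · exact hd n hn
  · exact fun m _ => ⟨fun h => absurd hn (not_free h), fun _ ho => ho.1 hn⟩

theorem always_three : Always fun μ => 0.931 ≤ meas μ fun d =>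
    ∀ n, n ∈ ({10, 11, 15} : Finset ℕ) ∨ Free n → DegOk n d := by
  obtain ⟨v10, v11, v12, v14, v15, v17, v18⟩ := badDeg_vals
  apply always_joint
  · intro n hn
    simp only [mem_insert, mem_singleton] at hn
    omega
  · have e : ∑ n ∈ ({10, 11, 15} : Finset ℕ), badDeg n = badDeg 10 + (badDeg 11 + badDeg 15) := by
      rw [sum_insert (by decide), sum_pair (by norm_num)]
    rw [e]
    linarith

theorem always_five : Always fun μ => 0.599 ≤ meas μ fun d =>
    ∀ n, n ∈ ({10, 11, 12, 14, 15} : Finset ℕ) ∨ Free n → DegOk n d := by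
  obtain ⟨v10, v11, v12, v14, v15, v17, v18⟩ := badDeg_vals
  apply always_joint
  · intro n hn
    simp only [mem_insert, mem_singleton] at hn
    omega
  · have e : ∑ n ∈ ({10, 11, 12, 14, 15} : Finset ℕ), badDeg n =
        badDeg 10 + (badDeg 11 + (badDeg 12 + (badDeg 14 + badDeg 15))) := by
      rw [sum_insert (by decide), sum_insert (by decide), sum_insert (by decide), sum_pair (by norm_num)]
    rw [e]
    linarith

theorem always_seven : Always fun μ => 0.148 ≤ meas μ fun d =>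
    ∀ n, n ∈ ({10, 11, 12, 14, 15, 17, 18} : Finset ℕ) ∨ Free n → DegOk n d := by
  obtain ⟨v10, v11, v12, v14, v15, v17, v18⟩ := badDeg_vals
  apply always_joint
  · intro n hn
    simp only [mem_insert, mem_singleton] at hn
    omega
  · have e : ∑ n ∈ ({10, 11, 12, 14, 15, 17, 18} : Finset ℕ), badDeg n =
        badDeg 10 + (badDeg 11 + (badDeg 12 + (badDeg 14 + (badDeg 15 + (badDeg 17 + badDeg 18))))) := by
      rw [sum_insert (by decide), sum_insert (by decide), sum_insert (by decide), sum_insert (by decide),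
        sum_insert (by decide), sum_pair (by norm_num)]
    rw [e]
    linarith

theorem every_degOk {n d : ℕ} (h : DegOk n d) (hn : 10 ≤ n) {m : ℕ} (hm : 1 ≤ m) :
    ∃ F : MvPolynomial (Fin n × Fin 2) ℚ, F ≠ 0 ∧ ∀ P : Fin n → Fin 2 → ℂ,
      MvPolynomial.aeval (fun ij : Fin n × Fin 2 => P ij.1 ij.2) F ≠ 0 →
      Pool.Agent.H932R3.ExpDim ℂ (fun _ => m) P d := by
  obtain ⟨h1, h2⟩ := h m hm
  by_cases h11 : n = 11 ∨ n = 15
  · obtain ⟨F, hF, hF'⟩ := Pool.Agent.N388.EFW.uniform3 (n := n) (by omega) m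
    refine ⟨F, hF, fun P hP => hF' P hP d ?_⟩
    by_cases h3 : 3 ∣ d
    · rcases h1 h11 with h4 | h4 | h4
      · exact absurd h3 h4
      · exact Or.inr (Or.inl ⟨h3, h4⟩)
      · exact Or.inr (Or.inr ⟨h3, h4⟩)
    · exact Or.inl ⟨h3, by omega⟩
  · obtain ⟨F, hF, hF'⟩ := generic hn hm
    exact ⟨F, hF, fun P hP => hF' P hP d fun h3 => h2 h11 h3.2⟩

end Pool.Agent.Run7.h388.RM
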