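import Pool.Agent.Run7.h388.RM.Pair

/-!
# The probability of a union of boxes
-/

set_option autoImplicit false

namespace Pool.Agent.Run7.h388.RM

open Finset Filter
open Pool.Agent.N794.DG

/-- finitely many properties -/
theorem always_finset {ι : Type} (S : Finset ι) {Q : ι → (ℕ →₀ ℝ) → Prop} (h : ∀ i ∈ S, Always (Q i)) :
    Always fun μ => ∀ i ∈ S, Q i μ := by
  classical
  induction S using Finset.induction_on with
  | empty => exact always_prob.mono fun μ _ _ i hi => absurd hi (notMem_empty i)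
  | insert a S ha ih =>
    refine (always_and (h a (mem_insert_self _ _)) (ih fun i hi => h i (mem_insert_of_mem hi))).mono fun μ _ hμ i hi => ?_
    rcases mem_insert.1 hi with rfl | hi
    · exact hμ.1
    · exact hμ.2 i hi

/-- disjoint properties -/
lemma meas_sum_le {ι : Type} {μ : ℕ →₀ ℝ} (h0 : ∀ m, 0 ≤ μ m) (S : Finset ι) (P : ι → ℕ → Prop) (R : ℕ → Prop)
    (hR : ∀ i ∈ S, ∀ m, P i m → R m) (hd : ∀ i ∈ S, ∀ j ∈ S, ∀ m, P i m → P j m → i = j) :
    ∑ i ∈ S, meas μ (P i) ≤ meas μ R := by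
  classical
  unfold meas
  rw [← sum_biUnion]
  · apply sum_le_sum_of_subset_of_nonneg
    · intro m hm
      rw [mem_biUnion] at hm
      obtain ⟨i, hi, hm⟩ := hm
      rw [mem_filter] at hm ⊢
      exact ⟨hm.1, hR i hi m hm.2⟩
    · intro m _ _
      exact h0 m
  · intro i hi j hj hij
    rw [Function.onFun, disjoint_left]
    intro m hm hm'
    rw [mem_filter] at hm hm'
    exact hij (hd i hi j hj m hm.2 hm'.2)

/-- an impossible property -/
lemma meas_false (μ : ℕ →₀ ℝ) {R : ℕ → Prop} (h : ∀ m, ¬ R m) : meas μ R = 0 := by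
  classical
  unfold meas
  rw [filter_false_of_mem fun m _ => h m, sum_empty]

/-- the union bound for finitely many properties -/
lemma meas_union {ι : Type} {μ : ℕ →₀ ℝ} (h0 : ∀ m, 0 ≤ μ m) (S : Finset ι) (P : ι → ℕ → Prop) :
    meas μ (fun m => ∃ i ∈ S, P i m) ≤ ∑ i ∈ S, meas μ (P i) := by
  classical
  induction S using Finset.induction_on with
  | empty =>
    rw [sum_empty, meas_false μ fun m hm => by
      obtain ⟨i, hi, _⟩ := hm
      exact notMem_empty i hi]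
  | insert a S ha ih =>
    rw [sum_insert ha]
    refine (meas_mono h0 fun m hm => ?_).trans ((meas_or h0 (P a) (fun m => ∃ i ∈ S, P i m)).trans (by linarith))
    obtain ⟨i, hi, hm⟩ := hm
    rcases mem_insert.1 hi with rfl | hi
    · exact Or.inl hm
    · exact Or.inr ⟨i, hi, hm⟩

/-- several properties at once -/
theorem always_several {ι : Type} (S : Finset ι) (good : ι → ℕ → Prop) (b : ι → ℝ)
    (h : ∀ i ∈ S, ∀ δ : ℝ, 0 < δ → Always fun μ => meas μ (fun m => ¬ good i m) ≤ b i + δ) {c : ℝ}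
    (hc : c < 1 - ∑ i ∈ S, b i) : Always fun μ => c ≤ meas μ fun m => ∀ i ∈ S, good i m := by
  classical
  obtain ⟨δ, hδ⟩ : ∃ δ : ℝ, δ = (1 - ∑ i ∈ S, b i - c) / (S.card + 1) := ⟨_, rfl⟩
  have hδ0 : 0 < δ := by
    rw [hδ]
    apply div_pos (by linarith) (by positivity)
  have hδ1 : S.card * δ ≤ 1 - ∑ i ∈ S, b i - c := by
    have h1 : ((S.card : ℝ) + 1) * δ = 1 - ∑ i ∈ S, b i - c := by
      rw [hδ]
      field_simp
    linarith
  refine (always_and (always_finset S fun i hi => h i hi δ hδ0) always_prob).mono fun μ _ hμ => ?_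
  obtain ⟨h1, h0, h2⟩ := hμ
  rw [meas_compl h2]
  have h3 : meas μ (fun m => ¬ ∀ i ∈ S, good i m) ≤ meas μ (fun m => ∃ i ∈ S, ¬ good i m) :=
    meas_mono h0 fun m hm => by
      push Not at hm
      exact hm
  have h4 := h3.trans (meas_union h0 S fun i m => ¬ good i m)
  have h5 : ∑ i ∈ S, meas μ (fun m => ¬ good i m) ≤ ∑ i ∈ S, (b i + δ) := sum_le_sum fun i hi => h1 i hi
  rw [sum_add_distrib, sum_const, nsmul_eq_mul] at h5
  linarith

/-- the cell of a point near the center of a cell -/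
lemma cell_of_near {q : ℕ} (hq : 1 ≤ q) {δ : ℝ} (hδ : 0 < δ) {y : ℝ} {c z : ℤ}
    (h : |y - ((c : ℝ) + 1 / 2) / q - z| ≤ (1 - δ) / (2 * q) + δ / (4 * q)) : (q : ℤ) ∣ ⌊(q : ℝ) * y⌋ - c := by
  have hq0 : (0 : ℝ) < q := by exact_mod_cast hq
  have e1 : (1 - δ) / (2 * q) + δ / (4 * q) = (1 / 2 - δ / 4) / (q : ℝ) := by
    field_simp
    ring
  have e2 : y - ((c : ℝ) + 1 / 2) / q - z = ((q : ℝ) * y - (c + 1 / 2) - q * z) / q := by
    field_simp
  rw [e1, e2, abs_div, abs_of_pos hq0] at h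
  have h1 := (div_le_div_iff_of_pos_right hq0).1 h
  obtain ⟨h2, h3⟩ := abs_le.1 h1
  have h4 : ⌊(q : ℝ) * y⌋ = c + q * z := by
    rw [Int.floor_eq_iff]
    push_cast
    constructor <;> linarith
  exact ⟨z, by rw [h4]; ring⟩

/-- **the probability of a union of boxes** -/
theorem always_cells {r q : ℕ} (hq : 1 ≤ q) (α β : Fin r → ℝ)
    (hα : ∀ h : Fin r → ℤ, h ≠ 0 → Irrational (∑ j, (h j : ℝ) * α j)) (G : Fin r → Finset ℕ)
    (hG : ∀ j, ∀ c ∈ G j, c < q) {δ δ' : ℝ} (hδ : 0 < δ) (hδ1 : δ < 1) (hδ' : 0 < δ') (n₀ : ℕ) (good : ℕ → Prop)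
    (hgood : ∀ m : ℕ, n₀ ≤ m → (∀ j, ∃ c ∈ G j, (q : ℤ) ∣ ⌊(q : ℝ) * (α j * m + β j)⌋ - (c : ℤ)) → good m) :
    Always fun μ => ((∏ j, (G j).card : ℕ) : ℝ) * (((1 - δ) / q) ^ r - δ') ≤ meas μ good := by
  classical
  have hq0 : (0 : ℝ) < q := by exact_mod_cast hq
  have hq1 : (1 : ℝ) ≤ q := by exact_mod_cast hq
  have h1 : Always fun μ => ∀ v ∈ Fintype.piFinset G, ((1 - δ) / q) ^ r - δ' ≤
      meas μ (fun m => n₀ ≤ m ∧ ∀ j, (q : ℤ) ∣ ⌊(q : ℝ) * (α j * m + β j)⌋ - (v j : ℤ)) := by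
    apply always_finset
    intro v _
    have e : 2 * ((1 - δ) / (2 * q)) = (1 - δ) / (q : ℝ) := by field_simp
    have h2 := always_box α hα β (fun j => (((v j : ℤ) : ℝ) + 1 / 2) / q) ((1 - δ) / (2 * q)) (δ / (4 * q)) δ'
      (div_nonneg (by linarith) (by positivity))
      (by
        rw [e, div_le_one hq0]
        linarith) (by positivity) hδ' n₀
      (fun m => n₀ ≤ m ∧ ∀ j, (q : ℤ) ∣ ⌊(q : ℝ) * (α j * m + β j)⌋ - (v j : ℤ)) (fun m hm hz => ⟨hm, fun j => by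
        obtain ⟨z, hz'⟩ := hz j
        exact cell_of_near hq hδ hz'⟩)
    rwa [e] at h2
  refine h1.mono fun μ h0 hμ => ?_
  have h3 := sum_le_sum hμ
  rw [sum_const, Fintype.card_piFinset, nsmul_eq_mul] at h3
  refine h3.trans (meas_sum_le h0 _ _ _ ?_ ?_)
  · intro v hv m hm
    exact hgood m hm.1 fun j => ⟨v j, Fintype.mem_piFinset.1 hv j, hm.2 j⟩
  · intro v hv v' hv' m hm hm'
    funext j
    have a1 := hG j _ (Fintype.mem_piFinset.1 hv j)
    have a2 := hG j _ (Fintype.mem_piFinset.1 hv' j)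
    have a3 : (q : ℤ) ∣ (v' j : ℤ) - v j := by
      have := dvd_sub (hm.2 j) (hm'.2 j)
      have e1 : ⌊(q : ℝ) * (α j * m + β j)⌋ - (v j : ℤ) - (⌊(q : ℝ) * (α j * m + β j)⌋ - (v' j : ℤ)) = v' j - v j := by
        ring
      rwa [e1] at this
    have a4 : |(v' j : ℤ) - v j| < q := by
      rw [abs_lt]
      constructor <;> omega
    have a5 := Int.eq_zero_of_abs_lt_dvd a3 a4
    omega

end Pool.Agent.Run7.h388.RM
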