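import Pool.Agent.Run7.h388.RM.Cells

/-!
# Random degrees near the multiples of a square root
-/

set_option autoImplicit false

namespace Pool.Agent.Run7.h388.RM

open Finset Filter
open Pool.Agent.N794.DG

/-- **random degrees in windows around the numbers `s (2 m + 1)`** -/
theorem always_window {s : ℝ} (hs : 0 < s) (hirr : Irrational s) {lo hi : ℝ} (hlh : 0 ≤ lo + hi) {δ : ℝ} (hδ : 0 < δ)
    (bad : ℕ → Prop) (hbad : ∀ d : ℕ, bad d → ∃ m : ℕ, s * (2 * m + 1) - lo ≤ 2 * (d : ℝ) + 3 ∧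
      2 * (d : ℝ) + 3 ≤ s * (2 * m + 1) + hi) :
    Always fun μ => meas μ bad ≤ (lo + hi) / (2 * s) + δ := by
  have e : (lo + hi) / (2 * s) = hi / (2 * s) - (-(lo / (2 * s))) := by ring
  rw [e]
  refine always_arc hirr.inv (3 / (2 * s) - 1 / 2) ?_ hδ 0 _ (fun d _ hd => ?_)
  · have h1 : 0 ≤ (lo + hi) / (2 * s) := div_nonneg hlh (by positivity)
    linarith
  · obtain ⟨m, h3, h4⟩ := hbad d hd
    refine ⟨m, ?_, ?_⟩
    · rw [← sub_nonneg]
      have e1 : s⁻¹ * (d : ℝ) + (3 / (2 * s) - 1 / 2) - ((m : ℕ) : ℤ) - -(lo / (2 * s)) =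
          (2 * d + 3 - (s * (2 * m + 1) - lo)) / (2 * s) := by
        push_cast
        field_simp
        ring
      rw [e1]
      apply div_nonneg _ (by positivity)
      linarith
    · rw [← sub_nonneg]
      have e1 : hi / (2 * s) - (s⁻¹ * (d : ℝ) + (3 / (2 * s) - 1 / 2) - ((m : ℕ) : ℤ)) =
          (s * (2 * m + 1) + hi - (2 * d + 3)) / (2 * s) := by
        push_cast
        field_simp
        ring
      rw [e1]
      apply div_nonneg _ (by positivity)
      linarith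

/-- a bound for `1 - 3 / √n` -/
lemma root_num {n : ℕ} (hn : 10 ≤ n) {s v : ℝ} (hs0 : 0 < s) (hs : (n : ℝ) < s ^ 2) (hv1 : v < 1) (hv : (1 - v) * s < 3) :
    1 - 3 / √(n : ℝ) < v := by
  have h0 : (3 : ℝ) < √(n : ℝ) := by
    apply Real.lt_sqrt_of_sq_lt
    have : (10 : ℝ) ≤ n := by exact_mod_cast hn
    linarith
  have h1 : √(n : ℝ) < s := (Real.sqrt_lt' hs0).2 hs
  rw [sub_lt_comm, lt_div_iff₀ (by linarith)]
  have h2 : (1 - v) * √(n : ℝ) < (1 - v) * s := mul_lt_mul_of_pos_left h1 (by linarith)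
  linarith

/-- the two ends of the windows -/
lemma window_lt {s : ℝ} (hs : 3 < s) :
    (min (s - 3) (2 / 3 + 9 / (4 * s)) + min (s - 3) (2 / 3 + 1 / (4 * s))) / (2 * s) < 0.24 := by
  rw [div_lt_iff₀ (by positivity)]
  have h3 := min_le_left (s - 3) (2 / 3 + 9 / (4 * s))
  have h4 := min_le_right (s - 3) (2 / 3 + 9 / (4 * s))
  have h5 := min_le_right (s - 3) (2 / 3 + 1 / (4 * s))
  have h6 : 1 / (4 * s) ≤ 1 / 12 := by
    apply one_div_le_one_div_of_le (by norm_num)
    linarith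
  rcases le_total s 4.25 with h7 | h7
  · linarith
  · have h8 : 1 / (4 * s) ≤ 1 / 17 := by
      apply one_div_le_one_div_of_le (by norm_num)
      linarith
    have h9 : 9 / (4 * s) = 9 * (1 / (4 * s)) := by ring
    linarith

end Pool.Agent.Run7.h388.RM
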