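import Pool.Agent.TH183.QS.Fin
import Pool.Agent.TH518.CW.TwoC
import Pool.Agent.Run7.h388.RM.Win

/-!
# Collisions of fat points in random degrees
-/

set_option autoImplicit false

namespace Pool.Agent.Run7.h388.RM.ColD

open Polynomial Pool.Agent.N794.DG Pool.Agent.Run7.h388.RM

universe u

/-- The forms of degree `d` in three variables whose dehomogenisation lies in the ideal
`(y - ∑ a_j x ^ j, (x - c) ^ r) ^ m` of `k[x][y]`. -/
noncomputable def forms {k : Type u} [Field k] {r : ℕ} (m : ℕ) (c : k) (a : Fin r → k) (d : ℕ) :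
    Submodule k (MvPolynomial (Fin 3) k) :=
  MvPolynomial.homogeneousSubmodule (Fin 3) k d ⊓
    (Submodule.restrictScalars k
      ((Ideal.span {X - C (∑ j : Fin r, C (a j) * X ^ (j : ℕ)), C ((X - C c) ^ r)} :
        Ideal k[X][X]) ^ m)).comap
      (MvPolynomial.aeval ![C X, X, 1] :
        MvPolynomial (Fin 3) k →ₐ[k] k[X][X]).toLinearMap

/-- Over the field `k`, for all `(c, a)` outside a hypersurface, the space of forms of degree `d` has the expected
dimension. -/
def ExpectedOver (k : Type u) [Field k] (r m d : ℕ) : Prop :=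
  ∃ F : MvPolynomial (Fin (r + 1)) k, F ≠ 0 ∧
    ∀ (c : k) (a : Fin r → k), MvPolynomial.eval (Fin.cons c a : Fin (r + 1) → k) F ≠ 0 →
      Module.finrank k (forms m c a d) = Nat.choose (d + 2) 2 - r * Nat.choose (m + 1) 2

/-- every multiplicity, every field of characteristic zero -/
def Good (r d : ℕ) : Prop := ∀ m : ℕ, ∀ (k : Type u) [Field k] [CharZero k], ExpectedOver k r m d

/-- every multiplicity, every field of any characteristic -/
def GoodAll (r d : ℕ) : Prop := ∀ m : ℕ, ∀ (k : Type u) [Field k], ExpectedOver k r m d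

open Classical in
/-- The bound for the proportion of the bad degrees in characteristic zero. -/
noncomputable def bad (r : ℕ) : ℝ :=
  if IsSquare r then 0
  else if r = 11 ∨ r = 13 then (√(r : ℝ) - 3) / (2 * √(r : ℝ))
  else (min (√(r : ℝ) - 3) (2 / 3 + 9 / (4 * √(r : ℝ))) +
    min (√(r : ℝ) - 3) (2 / 3 + 1 / (4 * √(r : ℝ)))) / (2 * √(r : ℝ))

/-- The bound for the proportion of the bad degrees in all characteristics. -/
noncomputable def badAll (r : ℕ) : ℝ :=
  if r = 11 ∨ r = 13 then (√(r : ℝ) - 3) / (2 * √(r : ℝ)) else (√(r : ℝ) - 3) / √(r : ℝ)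

theorem not_square {r : ℕ} (h1 : 10 ≤ r) (h2 : r ≤ 15) : ¬ IsSquare r := by
  rintro ⟨k, hk⟩
  have : k ≤ 3 := by nlinarith
  interval_cases k <;> omega

theorem gt_three {r : ℕ} (hr : 10 ≤ r) : (3 : ℝ) < √(r : ℝ) := by
  apply Real.lt_sqrt_of_sq_lt
  have : (10 : ℝ) ≤ r := by exact_mod_cast hr
  linarith

/-- eleven and thirteen points -/
theorem window3 {r d : ℕ} (hr : r = 11 ∨ r = 13) (h : ¬ GoodAll.{u} r d) :
    ∃ m : ℕ, √(r : ℝ) * (2 * m + 1) - (√(r : ℝ) - 3) ≤ 2 * (d : ℝ) + 3 ∧ 2 * (d : ℝ) + 3 ≤ √(r : ℝ) * (2 * m + 1) + 0 := by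
  by_contra hcon
  push Not at hcon
  apply h
  intro m k _
  have key : ∃ F : MvPolynomial (Fin (r + 1)) k, F ≠ 0 ∧
      ∀ (c : k) (a : Fin r → k), MvPolynomial.eval (Fin.cons c a : Fin (r + 1) → k) F ≠ 0 →
        ∀ d : ℕ, (¬ 3 ∣ d ∨ (d : ℝ) ≤ √(r : ℝ) * m ∨ √(r : ℝ) * (2 * m + 1) ≤ 2 * d + 3) →
          Module.finrank k (forms m c a d) = Nat.choose (d + 2) 2 - r * Nat.choose (m + 1) 2 := by
    rcases hr with rfl | rfl
    · obtain ⟨F, hF, hF'⟩ := Pool.Agent.TH518.CW.eleven_coll (m := m) k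
      exact ⟨F, hF, fun c a hc d hd => hF' c a hc d hd⟩
    · obtain ⟨F, hF, hF'⟩ := Pool.Agent.TH518.CW.thirteen_coll (m := m) k
      exact ⟨F, hF, fun c a hc d hd => hF' c a hc d hd⟩
  obtain ⟨F, hF, hF'⟩ := key
  refine ⟨F, hF, fun c a hc => hF' c a hc d (Or.inr ?_)⟩
  by_contra h3
  push Not at h3
  obtain ⟨h4, h5⟩ := h3
  have h6 := hcon m (by linarith)
  linarith

/-- all characteristics -/
theorem window_all {r d : ℕ} (hr : 10 ≤ r) (h : ¬ GoodAll.{u} r d) :
    ∃ m : ℕ, √(r : ℝ) * (2 * m + 1) - (√(r : ℝ) - 3) ≤ 2 * (d : ℝ) + 3 ∧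
      2 * (d : ℝ) + 3 ≤ √(r : ℝ) * (2 * m + 1) + (√(r : ℝ) - 3) := by
  by_contra hcon
  push Not at hcon
  apply h
  intro m k _
  obtain ⟨F, hF, hF'⟩ := Pool.Agent.TH518.CW.coll_all (m := m) hr k
  refine ⟨F, hF, fun c a hc => hF' c a hc d ?_⟩
  by_contra h3
  push Not at h3
  obtain ⟨h4, h5⟩ := h3
  have h6 := hcon m (by linarith)
  linarith

/-- characteristic zero -/
theorem window {r d : ℕ} (hr : 10 ≤ r) (h : ¬ Good.{u} r d) : ∃ m : ℕ,
    √(r : ℝ) * (2 * m + 1) - min (√(r : ℝ) - 3) (2 / 3 + 9 / (4 * √(r : ℝ))) ≤ 2 * (d : ℝ) + 3 ∧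
      2 * (d : ℝ) + 3 ≤ √(r : ℝ) * (2 * m + 1) + min (√(r : ℝ) - 3) (2 / 3 + 1 / (4 * √(r : ℝ))) := by
  by_contra hcon
  push Not at hcon
  apply h
  intro m k _ _
  obtain ⟨F, hF, hF'⟩ := Pool.Agent.TH183.QS.coll_every hr m k
  refine ⟨F, hF, fun c a hc => hF' c a hc d ?_⟩
  by_contra hd
  push Not at hd
  obtain ⟨d1, d2, d3, d4⟩ := hd
  have h1 := hcon m
  have h2 : √(r : ℝ) * (2 * m + 1) - min (√(r : ℝ) - 3) (2 / 3 + 9 / (4 * √(r : ℝ))) ≤ 2 * (d : ℝ) + 3 := by
    rcases min_choice (√(r : ℝ) - 3) (2 / 3 + 9 / (4 * √(r : ℝ))) with h | h <;> rw [h] <;>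
      linarith
  have h3 := h1 h2
  rcases min_choice (√(r : ℝ) - 3) (2 / 3 + 1 / (4 * √(r : ℝ))) with h | h <;> rw [h] at h3 <;>
    linarith

theorem squares {r d : ℕ} (hr : 10 ≤ r) (hsq : IsSquare r) : Good.{u} r d := by
  intro m k _ _
  obtain ⟨F, hF, hF'⟩ := Pool.Agent.TH183.QS.coll_start (m := m) hr (Or.inr hsq) k
  exact ⟨F, hF, fun c a hc => hF' c a hc d⟩

theorem of_all {r d : ℕ} (h : GoodAll.{u} r d) : Good.{u} r d :=
  fun m k _ _ => h m k

/-- one number of points, all fields -/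
theorem one_all {r : ℕ} (hr : 10 ≤ r) (hr' : r ≤ 15) {δ : ℝ} (hδ : 0 < δ) :
    Always fun μ => meas μ (fun d => ¬ GoodAll.{u} r d) ≤ badAll r + δ := by
  have hs3 := gt_three hr
  have hs0 : 0 < √(r : ℝ) := by linarith
  have hirr : Irrational √(r : ℝ) := irrational_sqrt_natCast_iff.2 (not_square hr hr')
  by_cases h11 : r = 11 ∨ r = 13
  · have e : badAll r = (√(r : ℝ) - 3 + 0) / (2 * √(r : ℝ)) := by
      unfold badAll
      rw [if_pos h11, add_zero]
    rw [e]
    exact always_window hs0 hirr (by linarith) hδ _ fun d hd => window3 h11 hd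
  · have e : badAll r = (√(r : ℝ) - 3 + (√(r : ℝ) - 3)) / (2 * √(r : ℝ)) := by
      unfold badAll
      rw [if_neg h11, ← two_mul, mul_div_mul_left _ _ two_ne_zero]
    rw [e]
    exact always_window hs0 hirr (by linarith) hδ _ fun d hd => window_all hr hd

/-- one number of points, characteristic zero -/
theorem one_zero {r : ℕ} (hr : 10 ≤ r) {δ : ℝ} (hδ : 0 < δ) :
    Always fun μ => meas μ (fun d => ¬ Good.{u} r d) ≤ bad r + δ := by
  classical
  have hs3 := gt_three hr
  have hs0 : 0 < √(r : ℝ) := by linarith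
  by_cases hsq : IsSquare r
  · have e : bad r = 0 := by
      unfold bad
      rw [if_pos hsq]
    rw [e, zero_add]
    exact always_none hδ 0 _ fun d _ hbad => hbad (squares hr hsq)
  · by_cases h11 : r = 11 ∨ r = 13
    · have e : bad r = badAll r := by
        unfold bad badAll
        rw [if_neg hsq, if_pos h11, if_pos h11]
      rw [e]
      exact (one_all hr (by omega) hδ).mono fun μ hμ h => (meas_mono hμ fun m hm h1 => hm (of_all h1)).trans h
    · have hirr : Irrational √(r : ℝ) := irrational_sqrt_natCast_iff.2 hsq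
      have e : bad r = (min (√(r : ℝ) - 3) (2 / 3 + 9 / (4 * √(r : ℝ))) +
          min (√(r : ℝ) - 3) (2 / 3 + 1 / (4 * √(r : ℝ)))) / (2 * √(r : ℝ)) := by
        unfold bad
        rw [if_neg hsq, if_neg h11]
      rw [e]
      refine always_window hs0 hirr ?_ hδ _ fun d hd => window hr hd
      have h1 : 0 ≤ min (√(r : ℝ) - 3) (2 / 3 + 9 / (4 * √(r : ℝ))) := le_min (by linarith) (by positivity)
      have h2 : 0 ≤ min (√(r : ℝ) - 3) (2 / 3 + 1 / (4 * √(r : ℝ))) := le_min (by linarith) (by positivity)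
      linarith

theorem bad_lt {r : ℕ} (hr : 10 ≤ r) : bad r < 0.24 := by
  classical
  have hs3 := gt_three hr
  have hs0 : 0 < √(r : ℝ) := by linarith
  unfold bad
  split_ifs with h1 h2
  · norm_num
  · have h4 : √(r : ℝ) < 4 := by
      rw [Real.sqrt_lt' (by norm_num)]
      have : (r : ℝ) ≤ 13 := by exact_mod_cast (by omega : r ≤ 13)
      linarith
    rw [div_lt_iff₀ (by positivity)]
    linarith
  · exact window_lt hs3

theorem bad_le {r : ℕ} (hr : 10 ≤ r) : bad r ≤ 1 - 3 / √(r : ℝ) := by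
  classical
  have hs3 := gt_three hr
  have hs0 : 0 < √(r : ℝ) := by linarith
  have e : 1 - 3 / √(r : ℝ) = (2 * (√(r : ℝ) - 3)) / (2 * √(r : ℝ)) := by field_simp
  rw [e]
  unfold bad
  split_ifs with h1 h2
  · apply div_nonneg _ (by positivity)
    linarith
  · apply div_le_div_of_nonneg_right _ (by positivity)
    linarith
  · apply div_le_div_of_nonneg_right _ (by positivity)
    have h3 := min_le_left (√(r : ℝ) - 3) (2 / 3 + 9 / (4 * √(r : ℝ)))
    have h4 := min_le_left (√(r : ℝ) - 3) (2 / 3 + 1 / (4 * √(r : ℝ)))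
    linarith

theorem badAll_odd {r : ℕ} (h : r = 11 ∨ r = 13) : badAll r = (1 - 3 / √(r : ℝ)) / 2 := by
  have hs3 := gt_three (r := r) (by omega)
  unfold badAll
  rw [if_pos h]
  field_simp

theorem badAll_even {r : ℕ} (hr : 10 ≤ r) (h : ¬ (r = 11 ∨ r = 13)) : badAll r = 1 - 3 / √(r : ℝ) := by
  have hs3 := gt_three hr
  unfold badAll
  rw [if_neg h]
  field_simp

theorem bad_odd {r : ℕ} (h : r = 11 ∨ r = 13) : bad r = badAll r := by
  classical
  have hsq : ¬ IsSquare r := not_square (by omega) (by omega)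
  unfold bad badAll
  rw [if_neg hsq, if_pos h, if_pos h]

theorem badAll_vals : badAll 10 < 0.05132 ∧ badAll 11 < 0.04774 ∧ badAll 12 < 0.13398 ∧ badAll 13 < 0.08398 ∧
    badAll 14 < 0.19822 ∧ badAll 15 < 0.22541 := by
  have a11 : 1 - 3 / √((11 : ℕ) : ℝ) < 2 * 0.04774 :=
    root_num (by norm_num) (s := 3.31663) (by norm_num) (by norm_num) (by norm_num) (by norm_num)
  have a13 : 1 - 3 / √((13 : ℕ) : ℝ) < 2 * 0.08398 :=
    root_num (by norm_num) (s := 3.60556) (by norm_num) (by norm_num) (by norm_num) (by norm_num)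
  refine ⟨?_, ?_, ?_, ?_, ?_, ?_⟩
  · rw [badAll_even (by norm_num) (by norm_num)]
    exact root_num (by norm_num) (s := 3.16228) (by norm_num) (by norm_num) (by norm_num) (by norm_num)
  · rw [badAll_odd (Or.inl rfl)]
    linarith
  · rw [badAll_even (by norm_num) (by norm_num)]
    exact root_num (by norm_num) (s := 3.46411) (by norm_num) (by norm_num) (by norm_num) (by norm_num)
  · rw [badAll_odd (Or.inr rfl)]
    linarith
  · rw [badAll_even (by norm_num) (by norm_num)]
    exact root_num (by norm_num) (s := 3.74166) (by norm_num) (by norm_num) (by norm_num) (by norm_num)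
  · rw [badAll_even (by norm_num) (by norm_num)]
    exact root_num (by norm_num) (s := 3.87299) (by norm_num) (by norm_num) (by norm_num) (by norm_num)

/-- ten to fifteen points at once, all fields -/
theorem joint_all : Always fun μ => 0.259 ≤ meas μ fun d => ∀ r ∈ ({10, 11, 12, 13, 14, 15} : Finset ℕ), GoodAll.{u} r d := by
  obtain ⟨v10, v11, v12, v13, v14, v15⟩ := badAll_vals
  refine always_several ({10, 11, 12, 13, 14, 15} : Finset ℕ) (fun r d => GoodAll.{u} r d) badAll ?_ ?_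
  · intro r hr δ hδ
    simp only [Finset.mem_insert, Finset.mem_singleton] at hr
    exact one_all (by omega) (by omega) hδ
  · have e : ∑ r ∈ ({10, 11, 12, 13, 14, 15} : Finset ℕ), badAll r =
        badAll 10 + (badAll 11 + (badAll 12 + (badAll 13 + (badAll 14 + badAll 15)))) := by
      rw [Finset.sum_insert (by decide), Finset.sum_insert (by decide), Finset.sum_insert (by decide),
        Finset.sum_insert (by decide), Finset.sum_pair (by norm_num)]
    rw [e]
    linarith

/-- ten, eleven and thirteen points and all squares at once, characteristic zero -/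
theorem joint_zero : Always fun μ => 0.816 ≤ meas μ fun d =>
    ∀ r : ℕ, 10 ≤ r → (r = 10 ∨ r = 11 ∨ r = 13 ∨ IsSquare r) → Good.{u} r d := by
  obtain ⟨v10, v11, v12, v13, v14, v15⟩ := badAll_vals
  have h : Always fun μ => 0.816 ≤ meas μ fun d => ∀ r ∈ ({10, 11, 13} : Finset ℕ), GoodAll.{u} r d := by
    refine always_several ({10, 11, 13} : Finset ℕ) (fun r d => GoodAll.{u} r d) badAll ?_ ?_
    · intro r hr δ hδ
      simp only [Finset.mem_insert, Finset.mem_singleton] at hr
      exact one_all (by omega) (by omega) hδ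
    · have e : ∑ r ∈ ({10, 11, 13} : Finset ℕ), badAll r = badAll 10 + (badAll 11 + badAll 13) := by
        rw [Finset.sum_insert (by decide), Finset.sum_pair (by norm_num)]
      rw [e]
      linarith
  refine h.mono fun μ hμ h1 => h1.trans (meas_mono hμ fun d hd r hr hmost => ?_)
  rcases hmost with rfl | rfl | rfl | h2
  · exact of_all (hd 10 (by decide))
  · exact of_all (hd 11 (by decide))
  · exact of_all (hd 13 (by decide))
  · exact squares hr h2

end Pool.Agent.Run7.h388.RM.ColD
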