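import Pool.Agent.N794.DG.Fat
import Pool.Agent.N388.EFW.Fam
import Pool.Agent.Run7.h388.RM.Cells

/-!
# One number of points, with the short windows for eleven and fifteen points
-/

set_option autoImplicit false

namespace Pool.Agent.Run7.h388.RM

open Finset Filter
open Pool.Agent.N141.SG Pool.Agent.N794.DG

theorem not_sq {n : ℕ} (h : n = 11 ∨ n = 15) : ¬ IsSquare n := by
  rintro ⟨k, hk⟩
  have : k ≤ 3 := by
    rcases h with rfl | rfl <;> nlinarith
  rcases h with rfl | rfl <;> interval_cases k <;> omega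

theorem not_free {n : ℕ} (h : n = 11 ∨ n = 15) : ¬ (37 ≤ n ∨ n = 13 ∨ n = 21 ∨ IsSquare n) := by
  rintro (h1 | h1 | h1 | h1)
  · omega
  · omega
  · omega
  · exact not_sq h h1

theorem lt_four {n : ℕ} (h : n = 11 ∨ n = 15) : √(n : ℝ) < 4 := by
  rw [Real.sqrt_lt' (by norm_num)]
  rcases h with rfl | rfl <;> norm_num

open Classical in
/-- The bound for the probability of the bad multiplicities. -/
noncomputable def badS (n : ℕ) : ℝ :=
  if 37 ≤ n ∨ n = 13 ∨ n = 21 ∨ IsSquare n then 0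
  else if n = 11 ∨ n = 15 then (√(n : ℝ) - 3) ^ 2 / (6 * (√(n : ℝ) + 3))
  else (min (√(n : ℝ) - 3) (2 / 3 + 9 / (4 * √(n : ℝ))) +
    min (√(n : ℝ) - 3) (2 / 3 + 1 / (4 * √(n : ℝ)))) / 2

theorem badS_odd {n : ℕ} (h : n = 11 ∨ n = 15) : badS n = (√(n : ℝ) - 3) ^ 2 / (6 * (√(n : ℝ) + 3)) := by
  unfold badS
  rw [if_neg (not_free h), if_pos h]

theorem badS_even {n : ℕ} (h : ¬ (n = 11 ∨ n = 15)) : badS n = badU n := by
  unfold badS badU
  simp only [if_neg h]

/-- **one number of points** -/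
theorem always_sharp {n : ℕ} (hn : 10 ≤ n) {δ : ℝ} (hδ : 0 < δ) :
    Always fun μ => meas μ (fun m => ¬ Ex n m) ≤ badS n + δ := by
  classical
  by_cases h11 : n = 11 ∨ n = 15
  · have hs3 := three_lt hn
    have hs0 : 0 < √(n : ℝ) + 3 := by linarith
    have hirr : Irrational √(n : ℝ) := irrational_sqrt_natCast_iff.2 (not_sq h11)
    have hirr3 : Irrational (√(n : ℝ) / 3) := by
      have := hirr.div_natCast (m := 3) (by norm_num)
      simpa using this
    have e : badS n = -((√(n : ℝ) - 3) / (√(n : ℝ) + 3)) - (-((√(n : ℝ) - 3) / 6)) := by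
      rw [badS_odd h11]
      field_simp
      ring
    rw [e]
    refine always_arc hirr3 0 ?_ hδ 1 _ (fun m hm hbad => ?_)
    · rw [neg_le_neg_iff]
      exact div_le_div_of_nonneg_left (by linarith) (by norm_num) (by linarith)
    · by_contra hcon
      push Not at hcon
      apply hbad
      obtain ⟨F, hF, hF'⟩ := Pool.Agent.N388.EFW.uniform3 (n := n) (by omega) m
      refine ⟨F, hF, fun P hP d => hF' P hP d ?_⟩
      by_cases h3 : 3 ∣ d
      · obtain ⟨z, rfl⟩ := h3
        have h1 := hcon (z : ℤ)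
        push_cast at h1 ⊢
        by_cases h4 : √(n : ℝ) * (2 * m + 1) ≤ 2 * (3 * (z : ℝ)) + 3
        · exact Or.inr (Or.inr ⟨⟨z, rfl⟩, h4⟩)
        · right; left
          refine ⟨⟨z, rfl⟩, ?_⟩
          rw [not_le] at h4
          have h5 := h1 (by linarith)
          have h7 : 3 * (z : ℝ) - √(n : ℝ) * m < 3 * ((√(n : ℝ) - 3) / (√(n : ℝ) + 3)) := by linarith
          calc (√(n : ℝ) + 3) * (3 * (z : ℝ) - √(n : ℝ) * m)
              < (√(n : ℝ) + 3) * (3 * ((√(n : ℝ) - 3) / (√(n : ℝ) + 3))) := mul_lt_mul_of_pos_left h7 hs0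
            _ = 3 * (√(n : ℝ) - 3) := by field_simp
      · exact Or.inl ⟨h3, by omega⟩
  · rw [badS_even h11]
    exact always_one hn hδ

theorem badS_lt {n : ℕ} (hn : 10 ≤ n) : badS n < 1 := by
  by_cases h11 : n = 11 ∨ n = 15
  · have hs3 := three_lt hn
    have h4 := lt_four h11
    rw [badS_odd h11, div_lt_one (by linarith)]
    nlinarith
  · rw [badS_even h11]
    exact badU_lt hn

theorem badS_vals : badS 10 < 0.163 ∧ badS 11 < 0.0027 ∧ badS 12 < 0.465 ∧ badS 14 < 0.738 ∧ badS 15 < 0.0185 := by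
  obtain ⟨v10, v11, v12, v14, v15⟩ := badU_vals
  refine ⟨?_, ?_, ?_, ?_, ?_⟩
  · rw [badS_even (by norm_num)]
    exact v10
  · rw [badS_odd (Or.inl rfl)]
    have h1 : √((11 : ℕ) : ℝ) < 3.3167 := by
      rw [Real.sqrt_lt' (by norm_num)]
      norm_num
    have h2 : 3.3166 < √((11 : ℕ) : ℝ) := by
      apply Real.lt_sqrt_of_sq_lt
      norm_num
    rw [div_lt_iff₀ (by positivity)]
    nlinarith
  · rw [badS_even (by norm_num)]
    exact v12
  · rw [badS_even (by norm_num)]
    exact v14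
  · rw [badS_odd (Or.inr rfl)]
    have h1 : √((15 : ℕ) : ℝ) < 3.873 := by
      rw [Real.sqrt_lt' (by norm_num)]
      norm_num
    have h2 : 3.8729 < √((15 : ℕ) : ℝ) := by
      apply Real.lt_sqrt_of_sq_lt
      norm_num
    rw [div_lt_iff₀ (by positivity)]
    nlinarith

end Pool.Agent.Run7.h388.RM
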