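import Pool.Agent.N141.SG.Deg3
import Pool.Agent.N141.SG.One
import Pool.Agent.Run7.h388.RM.Sharp
import Pool.Agent.Run7.h388.RM.Win

/-!
# Random degrees
-/

set_option autoImplicit false

namespace Pool.Agent.Run7.h388.RM

open Finset Filter
open Pool.Agent.N141.SG Pool.Agent.N794.DG
open Pool.Agent.Results.MP_d03834_ag.EffectiveEveryField (Open)

/-- **all numbers of points and all multiplicities at once** -/
theorem always_dtgt : Always fun μ => 0.0142 ≤ meas μ DTgt := by
  have h := always_cells (r := 20) (q := 200) (by norm_num) (fun j => √(rad j.succ : ℝ) / den j.succ)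
    (fun j => 3 / 2 * (√(rad j.succ : ℝ) / den j.succ)) (fun h hh => irr_deg hh) (fun j => cells j.succ)
    (fun j c hc => by
      rw [cells, mem_filter, mem_range] at hc
      exact hc.1) (δ := 1 / 40000) (δ' := 1 / 200 ^ 20 / 2000) (by norm_num) (by norm_num) (by norm_num) 0 DTgt
    (fun d _ hd j => by
      obtain ⟨c, hc, hdv⟩ := hd j
      refine ⟨c, hc, ?_⟩
      have e : yc d j.succ = √(rad j.succ : ℝ) / den j.succ * d + 3 / 2 * (√(rad j.succ : ℝ) / den j.succ) := by
        unfold yc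
        ring
      rw [e]
      exact_mod_cast hdv)
  refine h.mono fun μ _ hμ => le_trans ?_ hμ
  rw [cells_card]
  norm_num

/-- no multiplicity is in the window of the degree `d`; for eleven and fifteen points with the short windows -/
def DegOk (n d : ℕ) : Prop := ∀ m : ℕ, 1 ≤ m →
  (n = 11 ∨ n = 15 → ¬ 3 ∣ d ∨ (√(n : ℝ) + 3) * (d - √(n : ℝ) * m) < 3 * (√(n : ℝ) - 3) ∨
    √(n : ℝ) * (2 * m + 1) ≤ 2 * d + 3) ∧
  (¬ (n = 11 ∨ n = 15) → ¬ Open n m d)

open Classical in
/-- the bound for one number of points -/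
noncomputable def badDeg (n : ℕ) : ℝ :=
  if 37 ≤ n ∨ n = 13 ∨ n = 21 ∨ IsSquare n then 0
  else if n = 11 ∨ n = 15 then (√(n : ℝ) - 3) ^ 2 / (2 * √(n : ℝ) * (√(n : ℝ) + 3))
  else (min (√(n : ℝ) - 3) (2 / 3 + 9 / (4 * √(n : ℝ))) +
    min (√(n : ℝ) - 3) (2 / 3 + 1 / (4 * √(n : ℝ)))) / (2 * √(n : ℝ))

theorem always_degOk {n : ℕ} (hn : 10 ≤ n) {δ : ℝ} (hδ : 0 < δ) :
    Always fun μ => meas μ (fun d => ¬ DegOk n d) ≤ badDeg n + δ := by
  classical
  have hs3 := three_lt hn
  have hs0 : 0 < √(n : ℝ) := by linarith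
  have hs1 : 0 < √(n : ℝ) + 3 := by linarith
  by_cases hC : 37 ≤ n ∨ n = 13 ∨ n = 21 ∨ IsSquare n
  · have e : badDeg n = 0 := by
      unfold badDeg
      rw [if_pos hC]
    rw [e, zero_add]
    refine always_none hδ 0 _ (fun d _ hbad => hbad fun m _ => ⟨fun h => absurd hC (not_free h), fun _ ho => ho.1 hC⟩)
  · have hsq : ¬ IsSquare n := fun h0 => hC (Or.inr (Or.inr (Or.inr h0)))
    have hirr : Irrational √(n : ℝ) := irrational_sqrt_natCast_iff.2 hsq
    by_cases h11 : n = 11 ∨ n = 15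
    · have e : badDeg n = ((√(n : ℝ) - 3) ^ 2 / (√(n : ℝ) + 3) + 0) / (2 * √(n : ℝ)) := by
        unfold badDeg
        rw [if_neg hC, if_pos h11, add_zero]
        field_simp
      rw [e]
      refine always_window hs0 hirr (by positivity) hδ _ fun d hbad => ?_
      by_contra hcon
      push Not at hcon
      apply hbad
      intro m _
      refine ⟨fun _ => ?_, fun h => absurd h11 h⟩
      by_cases h4 : √(n : ℝ) * (2 * m + 1) ≤ 2 * d + 3
      · exact Or.inr (Or.inr h4)
      · right; left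
        rw [not_le] at h4
        by_contra h5
        rw [not_lt] at h5
        have h6 := hcon m ?_
        · linarith
        · have h7 : (√(n : ℝ) - 3) ^ 2 / (√(n : ℝ) + 3) = √(n : ℝ) - 3 - 6 * (√(n : ℝ) - 3) / (√(n : ℝ) + 3) := by
            field_simp
            ring
          have h8 : 3 * (√(n : ℝ) - 3) / (√(n : ℝ) + 3) ≤ d - √(n : ℝ) * m := by
            rw [div_le_iff₀ hs1]
            linarith
          have h9 : 6 * (√(n : ℝ) - 3) / (√(n : ℝ) + 3) = 2 * (3 * (√(n : ℝ) - 3) / (√(n : ℝ) + 3)) := by ring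
          rw [h7, h9]
          linarith
    · obtain ⟨g1, g2⟩ := win_nonneg hn
      have e : badDeg n = (min (√(n : ℝ) - 3) (2 / 3 + 9 / (4 * √(n : ℝ))) +
          min (√(n : ℝ) - 3) (2 / 3 + 1 / (4 * √(n : ℝ)))) / (2 * √(n : ℝ)) := by
        unfold badDeg
        rw [if_neg hC, if_neg h11]
      rw [e]
      refine always_window hs0 hirr (by linarith) hδ _ fun d hbad => ?_
      by_contra hcon
      push Not at hcon
      apply hbad
      intro m _
      refine ⟨fun h => absurd h h11, fun _ ho => ?_⟩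
      obtain ⟨-, h3, h4, -⟩ := ho
      have := hcon m h3
      linarith

end Pool.Agent.Run7.h388.RM
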