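import Pool.Agent.Run7.h388.RM.PathA

/-!
# Independent random integers: exponential sums along the sequence
-/

set_option autoImplicit false

namespace Pool.Agent.Run7.h388.RM

open MeasureTheory ProbabilityTheory Filter Topology Finset
open scoped Real ENNReal
open Pool.Agent.N794.DG

section
variable {Ω : Type} [MeasurableSpace Ω] {P : Measure Ω}

/-- The second moment of a sum of independent bounded complex random variables. -/
lemma second_indep {Y : ℕ → Ω → ℕ} (hY : iIndepFun Y P) (hm : ∀ i, Measurable (Y i)) {f : ℕ → ℂ}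
    (hf : ∀ m, ‖f m‖ ≤ 1) (K : ℕ) :
    ∫ ω, ‖∑ k ∈ range K, (f (Y k ω) - ∫ ω', f (Y k ω') ∂P)‖ ^ 2 ∂P ≤ 4 * K := by
  have := hY.isProbabilityMeasure
  have hfm : ∀ k, Measurable fun ω => f (Y k ω) := fun k => measurable_from_nat.comp (hm k)
  have hfi : ∀ k, Integrable (fun ω => f (Y k ω)) P := fun k =>
    Integrable.of_bound (hfm k).aestronglyMeasurable 1 (Eventually.of_forall fun ω => hf _)
  have hE : ∀ k, ‖∫ ω', f (Y k ω') ∂P‖ ≤ 1 := by
    intro k
    refine (norm_integral_le_of_norm_le_const (Eventually.of_forall fun ω => hf _)).trans ?_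
    rw [probReal_univ, mul_one]
  have hb : ∀ k ω, ‖f (Y k ω) - ∫ ω', f (Y k ω') ∂P‖ ≤ 2 := by
    intro k ω
    refine (norm_sub_le _ _).trans ?_
    linarith [hf (Y k ω), hE k]
  have hmk : ∀ k, Measurable fun ω => f (Y k ω) - ∫ ω', f (Y k ω') ∂P := fun k => (hfm k).sub_const _
  have hint : ∀ k l : ℕ, Integrable (fun ω => (f (Y k ω) - ∫ ω', f (Y k ω') ∂P) *
      (starRingEnd ℂ) (f (Y l ω) - ∫ ω', f (Y l ω') ∂P)) P := by
    intro k l
    refine Integrable.of_bound ?_ (2 * 2) (Eventually.of_forall fun ω => ?_)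
    · exact ((hmk k).mul (Complex.continuous_conj.measurable.comp (hmk l))).aestronglyMeasurable
    · rw [norm_mul, RCLike.norm_conj]
      exact mul_le_mul (hb k ω) (hb l ω) (norm_nonneg _) (by norm_num)
  have e1 : ∀ ω, ((‖∑ k ∈ range K, (f (Y k ω) - ∫ ω', f (Y k ω') ∂P)‖ ^ 2 : ℝ) : ℂ) =
      ∑ k ∈ range K, ∑ l ∈ range K, (f (Y k ω) - ∫ ω', f (Y k ω') ∂P) *
        (starRingEnd ℂ) (f (Y l ω) - ∫ ω', f (Y l ω') ∂P) := by
    intro ω
    have h1 : ∀ z : ℂ, ((‖z‖ ^ 2 : ℝ) : ℂ) = z * (starRingEnd ℂ) z := by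
      intro z
      rw [Complex.mul_conj, Complex.normSq_eq_norm_sq]
    rw [h1, map_sum, sum_mul_sum]
  have e2 : ((∫ ω, ‖∑ k ∈ range K, (f (Y k ω) - ∫ ω', f (Y k ω') ∂P)‖ ^ 2 ∂P : ℝ) : ℂ) =
      ∑ k ∈ range K, ∑ l ∈ range K, ∫ ω, (f (Y k ω) - ∫ ω', f (Y k ω') ∂P) *
        (starRingEnd ℂ) (f (Y l ω) - ∫ ω', f (Y l ω') ∂P) ∂P := by
    rw [← integral_complex_ofReal]
    refine (integral_congr_ae (Eventually.of_forall e1)).trans ?_
    rw [integral_finsetSum _ fun k _ => integrable_finsetSum _ fun l _ => hint k l]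
    refine sum_congr rfl fun k _ => ?_
    rw [integral_finsetSum _ fun l _ => hint k l]
  have h3 : ∫ ω, ‖∑ k ∈ range K, (f (Y k ω) - ∫ ω', f (Y k ω') ∂P)‖ ^ 2 ∂P =
      ‖((∫ ω, ‖∑ k ∈ range K, (f (Y k ω) - ∫ ω', f (Y k ω') ∂P)‖ ^ 2 ∂P : ℝ) : ℂ)‖ := by
    rw [Complex.norm_real, Real.norm_of_nonneg (integral_nonneg fun ω => by positivity)]
  rw [h3, e2]
  have hterm : ∀ k l : ℕ, ‖∫ ω, (f (Y k ω) - ∫ ω', f (Y k ω') ∂P) *
      (starRingEnd ℂ) (f (Y l ω) - ∫ ω', f (Y l ω') ∂P) ∂P‖ ≤ if l = k then 4 else 0 := by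
    intro k l
    split_ifs with hkl
    · rw [hkl]
      refine (norm_integral_le_of_norm_le_const (C := 4) (Eventually.of_forall fun ω => ?_)).trans ?_
      · rw [norm_mul, RCLike.norm_conj]
        calc ‖f (Y k ω) - ∫ ω', f (Y k ω') ∂P‖ * ‖f (Y k ω) - ∫ ω', f (Y k ω') ∂P‖ ≤ 2 * 2 :=
              mul_le_mul (hb k ω) (hb k ω) (norm_nonneg _) (by norm_num)
          _ = 4 := by norm_num
      · rw [probReal_univ, mul_one]
    · have hind : IndepFun (Y k) (Y l) P := hY.indepFun (fun h => hkl h.symm)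
      have h4 := hind.integral_fun_comp_mul_comp (𝕜 := ℂ) (f := fun m => f m - ∫ ω', f (Y k ω') ∂P)
        (g := fun m => (starRingEnd ℂ) (f m - ∫ ω', f (Y l ω') ∂P)) (hm k).aemeasurable (hm l).aemeasurable
        (measurable_from_nat).aestronglyMeasurable (measurable_from_nat).aestronglyMeasurable
      rw [h4, integral_sub (hfi k) (integrable_const _), integral_const, probReal_univ, one_smul, sub_self,
        zero_mul, norm_zero]
  calc ‖∑ k ∈ range K, ∑ l ∈ range K, ∫ ω, (f (Y k ω) - ∫ ω', f (Y k ω') ∂P) *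
        (starRingEnd ℂ) (f (Y l ω) - ∫ ω', f (Y l ω') ∂P) ∂P‖
      ≤ ∑ k ∈ range K, ∑ l ∈ range K, (if l = k then 4 else 0 : ℝ) :=
        (norm_sum_le _ _).trans (sum_le_sum fun k _ => (norm_sum_le _ _).trans (sum_le_sum fun l _ => hterm k l))
    _ = 4 * K := by
      have : ∀ k ∈ range K, ∑ l ∈ range K, (if l = k then 4 else 0 : ℝ) = 4 := by
        intro k hk
        rw [sum_ite_eq' (range K) k (fun _ => (4 : ℝ)), if_pos hk]
      rw [sum_congr rfl this, sum_const, card_range, nsmul_eq_mul]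
      ring

/-- the law of large numbers for bounded functions of independent random integers -/
lemma lln {Y : ℕ → Ω → ℕ} (hY : iIndepFun Y P) (hm : ∀ i, Measurable (Y i)) {f : ℕ → ℂ} (hf : ∀ m, ‖f m‖ ≤ 1) :
    ∀ᵐ ω ∂P, Tendsto (fun K : ℕ => ‖∑ k ∈ range K, (f (Y k ω) - ∫ ω', f (Y k ω') ∂P)‖ / K) atTop (𝓝 0) := by
  have := hY.isProbabilityMeasure
  have hfm : ∀ k, Measurable fun ω => f (Y k ω) := fun k => measurable_from_nat.comp (hm k)
  have hE : ∀ k, ‖∫ ω', f (Y k ω') ∂P‖ ≤ 1 := by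
    intro k
    refine (norm_integral_le_of_norm_le_const (Eventually.of_forall fun ω => hf _)).trans ?_
    rw [probReal_univ, mul_one]
  have hb : ∀ k ω, ‖f (Y k ω) - ∫ ω', f (Y k ω') ∂P‖ ≤ 2 := by
    intro k ω
    refine (norm_sub_le _ _).trans ?_
    linarith [hf (Y k ω), hE k]
  obtain ⟨A, hA⟩ : ∃ A : ℕ → Ω → ℂ, A = fun K ω => ∑ k ∈ range K, (f (Y k ω) - ∫ ω', f (Y k ω') ∂P) := ⟨_, rfl⟩
  have hAm : ∀ K, Measurable (A K) := by
    intro K
    rw [hA]
    exact Finset.measurable_sum _ fun k _ => (hfm k).sub_const _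
  have hAb : ∀ K ω, ‖A K ω‖ ≤ 2 * K := by
    intro K ω
    rw [hA]
    refine (norm_sum_le _ _).trans ((sum_le_sum fun k _ => hb k ω).trans (le_of_eq ?_))
    rw [sum_const, card_range, nsmul_eq_mul, mul_comm]
  have h1 : ∀ᵐ ω ∂P, Tendsto (fun j : ℕ => ‖A (j ^ 2) ω‖ ^ 2 / (j : ℝ) ^ 4) atTop (𝓝 0) := by
    refine ae_zero (f := fun j ω => ‖A (j ^ 2) ω‖ ^ 2 / (j : ℝ) ^ 4) (c := fun j => 4 * (1 / (j : ℝ) ^ 2)) ?_ ?_ ?_ ?_ ?_
    · intro j
      exact ((hAm (j ^ 2)).norm.pow_const 2).div_const _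
    · intro j ω
      positivity
    · exact (Real.summable_one_div_nat_pow.2 (by norm_num)).mul_left 4
    · intro j
      refine Integrable.div_const (Integrable.of_bound
        ((hAm (j ^ 2)).norm.pow_const 2).aestronglyMeasurable ((2 * ((j ^ 2 : ℕ) : ℝ)) ^ 2)
        (Eventually.of_forall fun ω => ?_)) _
      rw [Real.norm_of_nonneg (by positivity)]
      exact pow_le_pow_left₀ (norm_nonneg _) (hAb _ _) 2
    · intro j
      rw [integral_div]
      rcases Nat.eq_zero_or_pos j with rfl | hj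
      · simp
      · have hj0 : (0 : ℝ) < j := by exact_mod_cast hj
        have h2 := second_indep hY hm hf (j ^ 2)
        rw [div_le_iff₀ (by positivity)]
        have h3 : ∫ ω, ‖A (j ^ 2) ω‖ ^ 2 ∂P ≤ 4 * ((j ^ 2 : ℕ) : ℝ) := by
          rw [hA]
          exact h2
        refine h3.trans (le_of_eq ?_)
        push_cast
        field_simp
  filter_upwards [h1] with ω hω
  have h2 : Tendsto (fun j : ℕ => ‖(A (j ^ 2) ω) / 2‖ ^ 2 / (j : ℝ) ^ 4) atTop (𝓝 0) := by
    have h3 := hω.mul_const (1 / 4 : ℝ)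
    rw [zero_mul] at h3
    refine h3.congr fun j => ?_
    rw [norm_div, Complex.norm_ofNat]
    ring
  have h4 := interpolate (A := fun K => A K ω / 2) (fun K => by
    have e : A (K + 1) ω / 2 - A K ω / 2 = (f (Y K ω) - ∫ ω', f (Y K ω') ∂P) / 2 := by
      rw [hA]
      simp only [sum_range_succ]
      ring
    rw [e, norm_div, Complex.norm_ofNat, div_le_one (by norm_num)]
    exact hb K ω) h2
  have h5 := h4.mul_const (2 : ℝ)
  rw [zero_mul] at h5
  refine h5.congr fun K => ?_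
  rw [norm_div, Complex.norm_ofNat, hA]
  ring

end

end Pool.Agent.Run7.h388.RM
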