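import Pool.Agent.N794.DG.Near

/-!
# Several properties of a random integer at once
-/

set_option autoImplicit false

namespace Pool.Agent.Run7.h388.RM

open Finset Filter
open Pool.Agent.N794.DG

lemma near_anti {Θ Θ' : Finset ℝ} {ε ε' : ℝ} {n₀ n₀' : ℕ} {μ : ℕ →₀ ℝ} (h : Near Θ ε n₀ μ) (hΘ : Θ' ⊆ Θ)
    (hε : ε ≤ ε') (hn : n₀' ≤ n₀) : Near Θ' ε' n₀' μ := by
  refine ⟨h.nonneg, h.sum_one, fun θ hθ => (h.small θ (hΘ hθ)).trans hε, le_trans ?_ (h.few.trans hε)⟩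
  refine sum_le_sum_of_subset_of_nonneg ?_ fun m _ _ => h.nonneg m
  intro m hm
  rw [mem_range] at hm ⊢
  omega

/-- the conjunction -/
theorem always_and {Q R : (ℕ →₀ ℝ) → Prop} (hQ : Always Q) (hR : Always R) : Always fun μ => Q μ ∧ R μ := by
  classical
  obtain ⟨Θ, hΘ, ε, hε, n₀, h⟩ := hQ
  obtain ⟨Θ', hΘ', ε', hε', n₀', h'⟩ := hR
  refine ⟨Θ ∪ Θ', ?_, min ε ε', lt_min hε hε', max n₀ n₀', fun μ hμ => ⟨h _ ?_, h' _ ?_⟩⟩
  · intro θ hθ
    rcases mem_union.1 hθ with h1 | h1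
    · exact hΘ θ h1
    · exact hΘ' θ h1
  · exact near_anti hμ subset_union_left (min_le_left _ _) (le_max_left _ _)
  · exact near_anti hμ subset_union_right (min_le_right _ _) (le_max_right _ _)

/-- the total mass -/
theorem always_prob : Always fun μ => (∀ m, 0 ≤ μ m) ∧ ∑ m ∈ μ.support, μ m = 1 :=
  ⟨∅, by simp, 1, one_pos, 0, fun _ hμ => ⟨hμ.nonneg, hμ.sum_one⟩⟩

/-- the complement -/
lemma meas_compl {μ : ℕ →₀ ℝ} (h1 : ∑ m ∈ μ.support, μ m = 1) (P : ℕ → Prop) :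
    meas μ P = 1 - meas μ (fun m => ¬ P m) := by
  classical
  unfold meas
  have h2 := sum_filter_add_sum_filter_not μ.support P (fun m => μ m)
  rw [h1] at h2
  rw [eq_sub_iff_add_eq]
  convert h2

/-- the union bound -/
lemma meas_or {μ : ℕ →₀ ℝ} (h0 : ∀ m, 0 ≤ μ m) (P R : ℕ → Prop) :
    meas μ (fun m => P m ∨ R m) ≤ meas μ P + meas μ R := by
  classical
  unfold meas
  rw [sum_filter, sum_filter, sum_filter, ← sum_add_distrib]
  apply sum_le_sum
  intro m _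
  have := h0 m
  by_cases hP : P m <;> by_cases hR : R m <;> simp [hP, hR] <;> linarith

end Pool.Agent.Run7.h388.RM
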