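import Pool.Agent.N794.DG.Arc

/-!
# Exponential sums along the paths of random walks
-/

set_option autoImplicit false

namespace Pool.Agent.Run7.h388.RM

open MeasureTheory ProbabilityTheory Filter Topology Finset
open scoped Real ENNReal
open Pool.Agent.N794.DG

/-- The steps `X i` of a random walk: independent random natural numbers; each of them takes the two values `a ≠ b` with
probabilities at least `η > 0` (and may take any other values, infinitely many, too). -/
structure Steps {Ω : Type} [MeasurableSpace Ω] (P : Measure Ω) (X : ℕ → Ω → ℕ) (η : ℝ) (a b : ℕ) : Prop where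
  indep : iIndepFun X P
  meas : ∀ i, Measurable (X i)
  ne : a ≠ b
  pos : 0 < η
  left : ∀ i, η ≤ P.real {ω | X i ω = a}
  right : ∀ i, η ≤ P.real {ω | X i ω = b}

/-- the position after `k` steps -/
def place {Ω : Type} (X : ℕ → Ω → ℕ) (k : ℕ) (ω : Ω) : ℕ := ∑ i ∈ range k, X i ω

lemma conj_ex (x : ℝ) : (starRingEnd ℂ) (ex x) = ex (-x) := by
  unfold ex
  rw [← Complex.exp_conj]
  congr 1
  simp only [map_mul, Complex.conj_I, Complex.conj_ofReal, map_ofNat]
  push_cast
  ring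

lemma ex_continuous : Continuous ex := by
  unfold ex
  fun_prop

lemma ex_ne {θ : ℝ} (hθ : Irrational θ) {a b : ℕ} (hab : a ≠ b) : ex (θ * a) ≠ ex (θ * b) := by
  intro h
  unfold ex at h
  rw [Complex.exp_eq_exp_iff_exists_int] at h
  obtain ⟨n, hn⟩ := h
  have h1 : (2 * π * Complex.I : ℂ) ≠ 0 := Complex.two_pi_I_ne_zero
  have h2 : ((θ * a : ℝ) : ℂ) = ((θ * b : ℝ) : ℂ) + n := by
    apply mul_left_cancel₀ h1
    rw [hn]
    ring
  have h3 : θ * a = θ * b + n := by exact_mod_cast h2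
  have h4 : θ * (((a : ℤ) - (b : ℤ) : ℤ) : ℝ) = n := by
    push_cast
    linarith
  have h5 : ((a : ℤ) - (b : ℤ) : ℤ) ≠ 0 := by
    intro h6
    apply hab
    omega
  exact (hθ.mul_intCast h5).ne_int n h4

section
variable {Ω : Type} [MeasurableSpace Ω] {P : Measure Ω} {X : ℕ → Ω → ℕ} {η : ℝ} {a b : ℕ}

/-- the bound for the characteristic functions of the steps -/
noncomputable def rho (η θ : ℝ) (a b : ℕ) : ℝ := 1 - η * (2 - ‖ex (θ * a) + ex (θ * b)‖)

lemma rho_lt (hη : 0 < η) {θ : ℝ} (hθ : Irrational θ) (hab : a ≠ b) : rho η θ a b < 1 := by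
  unfold rho
  have h1 : ‖ex (θ * a) + ex (θ * b)‖ < 2 := by
    have h2 : ‖ex (θ * a) + ex (θ * b)‖ ≤ 2 := by
      refine (norm_add_le _ _).trans ?_
      rw [norm_ex, norm_ex]
      norm_num
    refine lt_of_le_of_ne h2 fun h3 => ex_ne hθ hab ?_
    have h4 : ‖ex (θ * a) + ex (θ * b)‖ = ‖ex (θ * a)‖ + ‖ex (θ * b)‖ := by
      rw [h3, norm_ex, norm_ex]
      norm_num
    have h5 : SameRay ℝ (ex (θ * a)) (ex (θ * b)) := sameRay_iff_norm_add.2 h4
    exact h5.eq_of_norm_eq (by rw [norm_ex, norm_ex])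
  nlinarith

lemma Steps.prob (h : Steps P X η a b) : IsProbabilityMeasure P := h.indep.isProbabilityMeasure

lemma Steps.meas_place (h : Steps P X η a b) (k : ℕ) : Measurable (place X k) := by
  unfold place
  exact Finset.measurable_sum _ fun i _ => h.meas i

/-- one step -/
lemma Steps.char_le (h : Steps P X η a b) (θ : ℝ) (i : ℕ) :
    ‖∫ ω, ex (θ * X i ω) ∂P‖ ≤ rho η θ a b := by
  have := h.prob
  have hm := h.meas i
  have hfm : Measurable fun ω => ex (θ * X i ω) :=
    ex_continuous.measurable.comp (measurable_const.mul (measurable_from_nat.comp hm))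
  have hint : Integrable (fun ω => ex (θ * X i ω)) P :=
    Integrable.of_bound hfm.aestronglyMeasurable 1 (Eventually.of_forall fun ω => (norm_ex _).le)
  have hA : MeasurableSet {ω | X i ω = a} := hm (measurableSet_singleton a)
  have hB : MeasurableSet {ω | X i ω = b} := hm (measurableSet_singleton b)
  have hAB : Disjoint {ω | X i ω = a} {ω | X i ω = b} := by
    rw [Set.disjoint_left]
    intro ω h1 h2
    exact h.ne (h1.symm.trans h2)
  have h1 : ∫ ω, ex (θ * X i ω) ∂P = (∫ ω in {ω | X i ω = a}, ex (θ * X i ω) ∂P +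
      ∫ ω in {ω | X i ω = b}, ex (θ * X i ω) ∂P) +
      ∫ ω in ({ω | X i ω = a} ∪ {ω | X i ω = b})ᶜ, ex (θ * X i ω) ∂P := by
    rw [← integral_add_compl (hA.union hB) hint, setIntegral_union hAB hB hint.integrableOn hint.integrableOn]
  have h2 : ∀ c : ℕ, MeasurableSet {ω | X i ω = c} →
      ∫ ω in {ω | X i ω = c}, ex (θ * X i ω) ∂P = (P.real {ω | X i ω = c} : ℂ) * ex (θ * c) := by
    intro c hc
    have h3 : ∫ ω in {ω | X i ω = c}, ex (θ * X i ω) ∂P = ∫ _ω in {ω | X i ω = c}, ex (θ * c) ∂P := by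
      apply setIntegral_congr_fun hc
      intro ω hω
      have h4 : X i ω = c := hω
      simp only [h4]
    rw [h3, setIntegral_const]
    rfl
  have h5 : ‖∫ ω in ({ω | X i ω = a} ∪ {ω | X i ω = b})ᶜ, ex (θ * X i ω) ∂P‖ ≤
      1 - P.real {ω | X i ω = a} - P.real {ω | X i ω = b} := by
    refine (norm_setIntegral_le_of_norm_le_const (C := 1) (measure_lt_top _ _) (fun ω _ => (norm_ex _).le)).trans ?_
    rw [one_mul, probReal_compl_eq_one_sub (hA.union hB), measureReal_union hAB hB]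
    linarith
  rw [h1, h2 a hA, h2 b hB]
  refine (norm_add_le _ _).trans ?_
  obtain ⟨p, hp⟩ : ∃ p : ℝ, p = P.real {ω | X i ω = a} := ⟨_, rfl⟩
  obtain ⟨q, hq⟩ : ∃ q : ℝ, q = P.real {ω | X i ω = b} := ⟨_, rfl⟩
  have hpη := h.left i
  have hqη := h.right i
  rw [← hp] at hpη
  rw [← hq] at hqη
  rw [← hp, ← hq] at h5 ⊢
  have h6 : ‖(p : ℂ) * ex (θ * a) + (q : ℂ) * ex (θ * b)‖ ≤
      η * ‖ex (θ * a) + ex (θ * b)‖ + (p - η) + (q - η) := by
    have e : (p : ℂ) * ex (θ * a) + (q : ℂ) * ex (θ * b) = ((η : ℂ) * (ex (θ * a) + ex (θ * b)) +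
        ((p - η : ℝ) : ℂ) * ex (θ * a)) + ((q - η : ℝ) : ℂ) * ex (θ * b) := by
      push_cast
      ring
    rw [e]
    refine (norm_add_le _ _).trans (add_le_add ((norm_add_le _ _).trans (add_le_add ?_ ?_)) ?_)
    · rw [norm_mul, Complex.norm_real, Real.norm_of_nonneg h.pos.le]
    · rw [norm_mul, Complex.norm_real, norm_ex, mul_one, Real.norm_of_nonneg (by linarith)]
    · rw [norm_mul, Complex.norm_real, norm_ex, mul_one, Real.norm_of_nonneg (by linarith)]
  unfold rho
  linarith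

/-- several steps -/
lemma Steps.char_prod (h : Steps P X η a b) (θ : ℝ) (k l : ℕ) (hkl : k ≤ l) :
    ‖∫ ω, ex (θ * ((place X l ω : ℝ) - place X k ω)) ∂P‖ ≤ rho η θ a b ^ (l - k) := by
  have e : ∀ ω, ex (θ * ((place X l ω : ℝ) - place X k ω)) = ∏ j : Fin (l - k), ex (θ * X (k + j) ω) := by
    intro ω
    have h1 : (place X l ω : ℝ) - place X k ω = ∑ j : Fin (l - k), (X (k + j) ω : ℝ) := by
      unfold place
      push_cast
      rw [← Finset.sum_Ico_eq_sub _ hkl, Finset.sum_Ico_eq_sum_range, Finset.sum_range]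
    rw [h1, mul_sum]
    have h2 : ∀ (s : Finset (Fin (l - k))) (f : Fin (l - k) → ℝ), ex (∑ i ∈ s, f i) = ∏ i ∈ s, ex (f i) := by
      classical
      intro s f
      induction s using Finset.induction_on with
      | empty => rw [sum_empty, prod_empty, ex_zero]
      | insert a s ha ih => rw [sum_insert ha, prod_insert ha, ex_add, ih]
    exact h2 _ _
  simp only [e]
  have hind : iIndepFun (fun j : Fin (l - k) => X (k + j)) P :=
    h.indep.precomp (g := fun j : Fin (l - k) => k + (j : ℕ)) (fun i j hij => by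
      apply Fin.ext
      have : k + (i : ℕ) = k + (j : ℕ) := hij
      omega)
  have h2 := hind.integral_fun_prod_comp (𝕜 := ℂ) (f := fun _ m => ex (θ * (m : ℕ)))
    (fun j => (h.meas _).aemeasurable) (fun j => (measurable_from_nat).aestronglyMeasurable)
  rw [h2, norm_prod]
  refine (prod_le_prod (fun _ _ => norm_nonneg _) fun (j : Fin (l - k)) _ => h.char_le θ (k + (j : ℕ))).trans (le_of_eq ?_)
  rw [prod_const, card_univ, Fintype.card_fin]

/-- the exponential sums along the path -/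
noncomputable def path (X : ℕ → Ω → ℕ) (θ : ℝ) (K : ℕ) (ω : Ω) : ℂ := ∑ k ∈ range K, ex (θ * place X k ω)

lemma Steps.meas_ex (h : Steps P X η a b) (θ : ℝ) (k : ℕ) : Measurable fun ω => ex (θ * place X k ω) :=
  ex_continuous.measurable.comp (measurable_const.mul (measurable_from_nat.comp (h.meas_place k)))

lemma Steps.meas_path (h : Steps P X η a b) (θ : ℝ) (K : ℕ) : Measurable (path X θ K) := by
  unfold path
  exact Finset.measurable_sum _ fun k _ => h.meas_ex θ k

lemma rho_nonneg (hη : η ≤ 1 / 2) (hη0 : 0 ≤ η) (θ : ℝ) : 0 ≤ rho η θ a b := by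
  unfold rho
  have := norm_nonneg (ex (θ * a) + ex (θ * b))
  nlinarith

lemma Steps.half (h : Steps P X η a b) : η ≤ 1 / 2 := by
  have := h.prob
  have hA : MeasurableSet {ω | X 0 ω = a} := h.meas 0 (measurableSet_singleton a)
  have hB : MeasurableSet {ω | X 0 ω = b} := h.meas 0 (measurableSet_singleton b)
  have hAB : Disjoint {ω | X 0 ω = a} {ω | X 0 ω = b} := by
    rw [Set.disjoint_left]
    intro ω h1 h2
    exact h.ne (h1.symm.trans h2)
  have h1 : P.real ({ω | X 0 ω = a} ∪ {ω | X 0 ω = b}) ≤ 1 := measureReal_le_one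
  rw [measureReal_union hAB hB] at h1
  have := h.left 0
  have := h.right 0
  linarith

lemma geom_le {ρ : ℝ} (h0 : 0 ≤ ρ) (h1 : ρ < 1) (n : ℕ) : ∑ i ∈ range n, ρ ^ i ≤ (1 - ρ)⁻¹ := by
  rw [← tsum_geometric_of_lt_one h0 h1]
  exact (summable_geometric_of_lt_one h0 h1).sum_le_tsum _ fun i _ => pow_nonneg h0 i

lemma dist_sum {ρ : ℝ} (h0 : 0 ≤ ρ) (h1 : ρ < 1) (K k : ℕ) (hk : k < K) :
    ∑ l ∈ range K, ρ ^ ((k - l) + (l - k)) ≤ 2 * (1 - ρ)⁻¹ := by
  have e : range K = range k ∪ Ico k K := by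
    ext x
    simp only [mem_union, mem_range, mem_Ico]
    omega
  have hd : Disjoint (range k) (Ico k K) := by
    rw [Finset.disjoint_left]
    intro x hx hx'
    simp only [mem_range, mem_Ico] at hx hx'
    omega
  rw [e, sum_union hd]
  have h2 : ∑ l ∈ range k, ρ ^ ((k - l) + (l - k)) ≤ (1 - ρ)⁻¹ := by
    have h3 : ∑ l ∈ range k, ρ ^ ((k - l) + (l - k)) ≤ ∑ l ∈ range k, ρ ^ (k - 1 - l) := by
      apply sum_le_sum
      intro l hl
      rw [mem_range] at hl
      apply pow_le_pow_of_le_one h0 h1.le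
      omega
    refine h3.trans ?_
    rw [sum_range_reflect (fun i => ρ ^ i) k]
    exact geom_le h0 h1 k
  have h4 : ∑ l ∈ Ico k K, ρ ^ ((k - l) + (l - k)) ≤ (1 - ρ)⁻¹ := by
    rw [Finset.sum_Ico_eq_sum_range]
    have h5 : ∑ i ∈ range (K - k), ρ ^ ((k - (k + i)) + (k + i - k)) = ∑ i ∈ range (K - k), ρ ^ i := by
      refine sum_congr rfl fun i _ => ?_
      congr 1
      omega
    rw [h5]
    exact geom_le h0 h1 _
  linarith

/-- the second moment -/
lemma Steps.second (h : Steps P X η a b) {θ : ℝ} (hθ : Irrational θ) (K : ℕ) :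
    ∫ ω, ‖path X θ K ω‖ ^ 2 ∂P ≤ K * (2 * (1 - max (rho η θ a b) (rho η (-θ) a b))⁻¹) := by
  have := h.prob
  obtain ⟨ρ, hρ⟩ : ∃ ρ : ℝ, ρ = max (rho η θ a b) (rho η (-θ) a b) := ⟨_, rfl⟩
  have hρ0 : 0 ≤ ρ := by
    rw [hρ]
    exact le_max_of_le_left (rho_nonneg h.half h.pos.le θ)
  have hρ1 : ρ < 1 := by
    rw [hρ]
    exact max_lt (rho_lt h.pos hθ h.ne) (rho_lt h.pos hθ.neg h.ne)
  rw [← hρ]
  have hint : ∀ k l : ℕ, Integrable (fun ω => ex (θ * place X k ω) * (starRingEnd ℂ) (ex (θ * place X l ω))) P := by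
    intro k l
    refine Integrable.of_bound ?_ 1 (Eventually.of_forall fun ω => ?_)
    · exact ((h.meas_ex θ k).mul (Complex.continuous_conj.measurable.comp (h.meas_ex θ l))).aestronglyMeasurable
    · rw [norm_mul, RCLike.norm_conj, norm_ex, norm_ex, mul_one]
  have e1 : ∀ ω, ((‖path X θ K ω‖ ^ 2 : ℝ) : ℂ) =
      ∑ k ∈ range K, ∑ l ∈ range K, ex (θ * place X k ω) * (starRingEnd ℂ) (ex (θ * place X l ω)) := by
    intro ω
    have h1 : ((‖path X θ K ω‖ ^ 2 : ℝ) : ℂ) = path X θ K ω * (starRingEnd ℂ) (path X θ K ω) := by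
      rw [Complex.mul_conj, Complex.normSq_eq_norm_sq]
    rw [h1]
    unfold path
    rw [map_sum, sum_mul_sum]
  have e2 : ((∫ ω, ‖path X θ K ω‖ ^ 2 ∂P : ℝ) : ℂ) =
      ∑ k ∈ range K, ∑ l ∈ range K, ∫ ω, ex (θ * place X k ω) * (starRingEnd ℂ) (ex (θ * place X l ω)) ∂P := by
    rw [← integral_complex_ofReal]
    have h1 : ∫ ω, ((‖path X θ K ω‖ ^ 2 : ℝ) : ℂ) ∂P =
        ∫ ω, ∑ k ∈ range K, ∑ l ∈ range K, ex (θ * place X k ω) * (starRingEnd ℂ) (ex (θ * place X l ω)) ∂P :=
      integral_congr_ae (Eventually.of_forall e1)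
    refine h1.trans ?_
    rw [integral_finset_sum _ fun k _ => integrable_finset_sum _ fun l _ => hint k l]
    refine sum_congr rfl fun k _ => ?_
    rw [integral_finset_sum _ fun l _ => hint k l]
  have h3 : ∫ ω, ‖path X θ K ω‖ ^ 2 ∂P = ‖((∫ ω, ‖path X θ K ω‖ ^ 2 ∂P : ℝ) : ℂ)‖ := by
    rw [Complex.norm_real, Real.norm_of_nonneg (integral_nonneg fun ω => by positivity)]
  rw [h3, e2]
  have hterm : ∀ k l : ℕ, ‖∫ ω, ex (θ * place X k ω) * (starRingEnd ℂ) (ex (θ * place X l ω)) ∂P‖ ≤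
      ρ ^ ((k - l) + (l - k)) := by
    intro k l
    rcases le_total k l with hkl | hkl
    · have e : ∀ ω, ex (θ * place X k ω) * (starRingEnd ℂ) (ex (θ * place X l ω)) =
          ex (-θ * ((place X l ω : ℝ) - place X k ω)) := by
        intro ω
        rw [conj_ex, ← ex_add]
        congr 1
        ring
      simp only [e]
      refine (h.char_prod (-θ) k l hkl).trans ?_
      have h4 : (k - l) + (l - k) = l - k := by omega
      rw [h4, hρ]
      exact pow_le_pow_left₀ (rho_nonneg h.half h.pos.le _) (le_max_right _ _) _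
    · have e : ∀ ω, ex (θ * place X k ω) * (starRingEnd ℂ) (ex (θ * place X l ω)) =
          ex (θ * ((place X k ω : ℝ) - place X l ω)) := by
        intro ω
        rw [conj_ex, ← ex_add]
        congr 1
        ring
      simp only [e]
      refine (h.char_prod θ l k hkl).trans ?_
      have h4 : (k - l) + (l - k) = k - l := by omega
      rw [h4, hρ]
      exact pow_le_pow_left₀ (rho_nonneg h.half h.pos.le _) (le_max_left _ _) _
  calc ‖∑ k ∈ range K, ∑ l ∈ range K, ∫ ω, ex (θ * place X k ω) * (starRingEnd ℂ) (ex (θ * place X l ω)) ∂P‖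
      ≤ ∑ k ∈ range K, ∑ l ∈ range K, ρ ^ ((k - l) + (l - k)) :=
        (norm_sum_le _ _).trans (sum_le_sum fun k _ => (norm_sum_le _ _).trans (sum_le_sum fun l _ => hterm k l))
    _ ≤ ∑ _k ∈ range K, 2 * (1 - ρ)⁻¹ := sum_le_sum fun k hk => dist_sum hρ0 hρ1 K k (mem_range.1 hk)
    _ = K * (2 * (1 - ρ)⁻¹) := by rw [sum_const, card_range, nsmul_eq_mul]

/-- a summable sequence of nonnegative integrals -/
lemma ae_zero [IsProbabilityMeasure P] {f : ℕ → Ω → ℝ} (hf : ∀ j, Measurable (f j)) (h0 : ∀ j ω, 0 ≤ f j ω)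
    {c : ℕ → ℝ} (hc : Summable c) (hi : ∀ j, Integrable (f j) P) (hle : ∀ j, ∫ ω, f j ω ∂P ≤ c j) :
    ∀ᵐ ω ∂P, Tendsto (fun j => f j ω) atTop (𝓝 0) := by
  have h1 : ∫⁻ ω, ∑' j, ENNReal.ofReal (f j ω) ∂P ≠ ∞ := by
    rw [lintegral_tsum fun j => (hf j).ennreal_ofReal.aemeasurable]
    have h2 : ∀ j, ∫⁻ ω, ENNReal.ofReal (f j ω) ∂P ≤ ENNReal.ofReal (c j) := by
      intro j
      rw [← ofReal_integral_eq_lintegral_ofReal (hi j) (Eventually.of_forall (h0 j))]
      exact ENNReal.ofReal_le_ofReal (hle j)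
    have h3 : ∑' j, ENNReal.ofReal (c j) ≠ ∞ := by
      have hc0 : ∀ j, 0 ≤ c j := fun j => (integral_nonneg (h0 j)).trans (hle j)
      rw [← ENNReal.ofReal_tsum_of_nonneg hc0 hc]
      exact ENNReal.ofReal_ne_top
    exact ne_top_of_le_ne_top h3 (ENNReal.tsum_le_tsum h2)
  have h4 : ∀ᵐ ω ∂P, ∑' j, ENNReal.ofReal (f j ω) < ∞ :=
    ae_lt_top (Measurable.tsum fun j => (hf j).ennreal_ofReal) h1
  filter_upwards [h4] with ω hω
  have h5 := ENNReal.tendsto_atTop_zero_of_tsum_ne_top hω.ne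
  have h6 := (ENNReal.tendsto_toReal ENNReal.zero_ne_top).comp h5
  rw [ENNReal.toReal_zero] at h6
  refine h6.congr fun j => ?_
  simp only [Function.comp]
  exact ENNReal.toReal_ofReal (h0 j ω)

/-- interpolation between the squares -/
lemma interpolate {A : ℕ → ℂ} (hA : ∀ K, ‖A (K + 1) - A K‖ ≤ 1)
    (h : Tendsto (fun j : ℕ => ‖A (j ^ 2)‖ ^ 2 / (j : ℝ) ^ 4) atTop (𝓝 0)) :
    Tendsto (fun K : ℕ => ‖A K‖ / K) atTop (𝓝 0) := by
  have hstep : ∀ K n : ℕ, ‖A (K + n) - A K‖ ≤ n := by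
    intro K n
    induction n with
    | zero => simp
    | succ n ih =>
      have e : A (K + (n + 1)) - A K = (A (K + n + 1) - A (K + n)) + (A (K + n) - A K) := by
        rw [← add_assoc]
        ring
      rw [e]
      push_cast
      refine (norm_add_le _ _).trans ?_
      linarith [hA (K + n)]
  have hs : Tendsto (fun j : ℕ => ‖A (j ^ 2)‖ / (j : ℝ) ^ 2 + 2 / (j : ℝ)) atTop (𝓝 0) := by
    have h1 : Tendsto (fun j : ℕ => Real.sqrt (‖A (j ^ 2)‖ ^ 2 / (j : ℝ) ^ 4)) atTop (𝓝 0) := by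
      have := (Real.continuous_sqrt.tendsto 0).comp h
      rwa [Real.sqrt_zero] at this
    have h2 : Tendsto (fun j : ℕ => ‖A (j ^ 2)‖ / (j : ℝ) ^ 2) atTop (𝓝 0) := by
      refine h1.congr fun j => ?_
      have e : ‖A (j ^ 2)‖ ^ 2 / (j : ℝ) ^ 4 = (‖A (j ^ 2)‖ / (j : ℝ) ^ 2) ^ 2 := by
        rw [div_pow]
        ring
      rw [e, Real.sqrt_sq (by positivity)]
    have h3 : Tendsto (fun j : ℕ => 2 / (j : ℝ)) atTop (𝓝 0) := tendsto_const_div_atTop_nhds_zero_nat 2
    simpa using h2.add h3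
  have hsq : Tendsto Nat.sqrt atTop atTop := by
    rw [tendsto_atTop]
    intro b
    filter_upwards [eventually_ge_atTop (b ^ 2)] with K hK
    rw [Nat.le_sqrt']
    exact hK
  refine squeeze_zero' (Eventually.of_forall fun K => by positivity) ?_ (hs.comp hsq)
  filter_upwards [eventually_ge_atTop 1] with K hK
  obtain ⟨j, hj⟩ : ∃ j, j = Nat.sqrt K := ⟨_, rfl⟩
  simp only [Function.comp]
  rw [← hj]
  have h1 : j ^ 2 ≤ K := by
    rw [hj]
    exact Nat.sqrt_le' K
  have h2 : K ≤ j ^ 2 + 2 * j := by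
    have := Nat.sqrt_le_add K
    rw [← hj] at this
    nlinarith
  have hj1 : 1 ≤ j := by
    rw [hj, Nat.le_sqrt']
    simpa using hK
  obtain ⟨n, hn⟩ := Nat.exists_eq_add_of_le h1
  have h3 : ‖A K‖ ≤ ‖A (j ^ 2)‖ + 2 * j := by
    have h4 := hstep (j ^ 2) n
    rw [← hn] at h4
    have h5 : (n : ℝ) ≤ 2 * j := by
      have : n ≤ 2 * j := by omega
      exact_mod_cast this
    have e : A K = (A K - A (j ^ 2)) + A (j ^ 2) := by ring
    rw [e]
    refine (norm_add_le _ _).trans ?_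
    linarith
  have hj0 : (0 : ℝ) < j := by exact_mod_cast hj1
  have hK0 : (j : ℝ) ^ 2 ≤ K := by exact_mod_cast h1
  calc ‖A K‖ / K ≤ (‖A (j ^ 2)‖ + 2 * j) / (j : ℝ) ^ 2 :=
        div_le_div₀ (by positivity) h3 (by positivity) hK0
    _ = ‖A (j ^ 2)‖ / (j : ℝ) ^ 2 + 2 / (j : ℝ) := by
      field_simp

/-- **exponential sums along the path** -/
theorem Steps.weyl (h : Steps P X η a b) {θ : ℝ} (hθ : Irrational θ) :
    ∀ᵐ ω ∂P, Tendsto (fun K : ℕ => ‖path X θ K ω‖ / K) atTop (𝓝 0) := by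
  have := h.prob
  obtain ⟨C, hC⟩ : ∃ C : ℝ, C = 2 * (1 - max (rho η θ a b) (rho η (-θ) a b))⁻¹ := ⟨_, rfl⟩
  have hbd : ∀ K ω, ‖path X θ K ω‖ ≤ K := by
    intro K ω
    unfold path
    refine (norm_sum_le _ _).trans (le_of_eq ?_)
    simp only [norm_ex, sum_const, card_range, nsmul_eq_mul, mul_one]
  have h1 : ∀ᵐ ω ∂P, Tendsto (fun j : ℕ => ‖path X θ (j ^ 2) ω‖ ^ 2 / (j : ℝ) ^ 4) atTop (𝓝 0) := by
    refine ae_zero (f := fun j ω => ‖path X θ (j ^ 2) ω‖ ^ 2 / (j : ℝ) ^ 4) (c := fun j => C * (1 / (j : ℝ) ^ 2)) ?_ ?_ ?_ ?_ ?_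
    · intro j
      exact ((h.meas_path θ (j ^ 2)).norm.pow_const 2).div_const _
    · intro j ω
      positivity
    · exact (Real.summable_one_div_nat_pow.2 (by norm_num)).mul_left C
    · intro j
      refine Integrable.div_const (Integrable.of_bound
        ((h.meas_path θ (j ^ 2)).norm.pow_const 2).aestronglyMeasurable (((j ^ 2 : ℕ) : ℝ) ^ 2)
        (Eventually.of_forall fun ω => ?_)) _
      rw [Real.norm_of_nonneg (by positivity)]
      exact pow_le_pow_left₀ (norm_nonneg _) (hbd _ _) 2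
    · intro j
      rw [integral_div]
      rcases Nat.eq_zero_or_pos j with rfl | hj
      · simp
      · have hj0 : (0 : ℝ) < j := by exact_mod_cast hj
        have h2 := h.second hθ (j ^ 2)
        rw [← hC] at h2
        rw [div_le_iff₀ (by positivity)]
        refine h2.trans (le_of_eq ?_)
        push_cast
        field_simp
  filter_upwards [h1] with ω hω
  refine interpolate (A := fun K => path X θ K ω) (fun K => ?_) hω
  unfold path
  rw [sum_range_succ, add_sub_cancel_left, norm_ex]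

/-- the half to the power of a step -/
lemma Steps.half_le (h : Steps P X η a b) (i : ℕ) : ∫ ω, ((1 / 2 : ℝ)) ^ (X i ω) ∂P ≤ 1 - η / 2 := by
  have := h.prob
  obtain ⟨c, hc1, hc2⟩ : ∃ c : ℕ, 1 ≤ c ∧ η ≤ P.real {ω | X i ω = c} := by
    rcases Nat.eq_zero_or_pos a with ha | ha
    · refine ⟨b, ?_, h.right i⟩
      have := h.ne
      omega
    · exact ⟨a, ha, h.left i⟩
  have hC : MeasurableSet {ω | X i ω = c} := h.meas i (measurableSet_singleton c)
  have hm : Measurable fun ω => ((1 / 2 : ℝ)) ^ (X i ω) := measurable_from_nat.comp (h.meas i)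
  have h1 : ∫ ω, ((1 / 2 : ℝ)) ^ (X i ω) ∂P ≤ ∫ ω, (1 - ({ω | X i ω = c}).indicator (fun _ => (1 / 2 : ℝ)) ω) ∂P := by
    apply integral_mono
    · refine Integrable.of_bound hm.aestronglyMeasurable 1 (Eventually.of_forall fun ω => ?_)
      rw [Real.norm_of_nonneg (by positivity)]
      exact pow_le_one₀ (by norm_num) (by norm_num)
    · exact (integrable_const _).sub ((integrable_const _).indicator hC)
    · intro ω
      by_cases hω : ω ∈ {ω | X i ω = c}
      · have hω' : X i ω = c := hω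
        simp only [Set.indicator_of_mem hω, hω']
        calc ((1 : ℝ) / 2) ^ c ≤ (1 / 2) ^ 1 := pow_le_pow_of_le_one (by norm_num) (by norm_num) hc1
          _ = 1 - 1 / 2 := by norm_num
      · simp only [Set.indicator_of_notMem hω]
        rw [sub_zero]
        exact pow_le_one₀ (by norm_num) (by norm_num)
  refine h1.trans ?_
  rw [integral_sub (integrable_const _) ((integrable_const _).indicator hC), integral_const, probReal_univ,
    integral_indicator_const _ hC]
  simp only [smul_eq_mul, mul_one]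
  linarith

/-- **the path tends to infinity** -/
theorem Steps.escape (h : Steps P X η a b) : ∀ᵐ ω ∂P, Tendsto (fun k => place X k ω) atTop atTop := by
  have := h.prob
  have hη := h.half
  have hη0 := h.pos
  have h1 : ∀ᵐ ω ∂P, Tendsto (fun k : ℕ => ((1 / 2 : ℝ)) ^ (place X k ω)) atTop (𝓝 0) := by
    refine ae_zero (f := fun k ω => ((1 / 2 : ℝ)) ^ (place X k ω)) (c := fun k => (1 - η / 2) ^ k) ?_ ?_ ?_ ?_ ?_
    · intro k
      exact measurable_from_nat.comp (h.meas_place k)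
    · intro k ω
      positivity
    · exact summable_geometric_of_lt_one (by linarith) (by linarith)
    · intro k
      refine Integrable.of_bound (measurable_from_nat.comp (h.meas_place k)).aestronglyMeasurable 1
        (Eventually.of_forall fun ω => ?_)
      rw [Real.norm_of_nonneg (by positivity)]
      exact pow_le_one₀ (by norm_num) (by norm_num)
    · intro k
      have e : ∀ ω, ((1 / 2 : ℝ)) ^ (place X k ω) = ∏ j : Fin k, ((1 / 2 : ℝ)) ^ (X j ω) := by
        intro ω
        unfold place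
        rw [prod_pow_eq_pow_sum, Finset.sum_range]
      simp only [e]
      have hind : iIndepFun (fun j : Fin k => X j) P :=
        h.indep.precomp (g := fun j : Fin k => (j : ℕ)) Fin.val_injective
      have h2 := hind.integral_fun_prod_comp (𝕜 := ℝ) (f := fun _ m => ((1 / 2 : ℝ)) ^ (m : ℕ))
        (fun j => (h.meas _).aemeasurable) (fun j => (measurable_from_nat).aestronglyMeasurable)
      rw [h2]
      refine (prod_le_prod (fun (j : Fin k) _ => integral_nonneg fun ω => by positivity)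
        fun (j : Fin k) _ => h.half_le (j : ℕ)).trans (le_of_eq ?_)
      rw [prod_const, card_univ, Fintype.card_fin]
  filter_upwards [h1] with ω hω
  rw [tendsto_atTop]
  intro B
  have h2 : (0 : ℝ) < (1 / 2) ^ B := by positivity
  filter_upwards [hω.eventually_lt_const h2] with k hk
  by_contra hcon
  push Not at hcon
  have h3 : ((1 : ℝ) / 2) ^ B ≤ (1 / 2) ^ (place X k ω) := pow_le_pow_of_le_one (by norm_num) (by norm_num) hcon.le
  linarith

end

end Pool.Agent.Run7.h388.RM
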