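import Pool.Agent.N794.DG.Near
import Pool.Agent.Run7.h388.RM.Indep

/-!
# Almost all paths of random walks, and almost all sequences of independent random integers
-/

set_option autoImplicit false

namespace Pool.Agent.Run7.h388.RM

open MeasureTheory ProbabilityTheory Filter Topology Finset
open scoped Real ENNReal
open Pool.Agent.N794.DG

/-- the empirical distribution of the first `K` terms -/
noncomputable def empLaw (x : ℕ → ℕ) (K : ℕ) : ℕ →₀ ℝ := law (range K) (fun _ => 1 / (K : ℝ)) x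

open Classical in
/-- the number of the first `K` terms with the property -/
noncomputable def hits (x : ℕ → ℕ) (Q : ℕ → Prop) (K : ℕ) : ℝ := (((range K).filter fun k => Q (x k)).card : ℝ)

lemma hits_eq (x : ℕ → ℕ) (Q : ℕ → Prop) (K : ℕ) [DecidablePred fun k => Q (x k)] :
    hits x Q K = (((range K).filter fun k => Q (x k)).card : ℝ) := by
  unfold hits
  congr

lemma meas_empLaw (x : ℕ → ℕ) (Q : ℕ → Prop) (K : ℕ) : meas (empLaw x K) Q = hits x Q K / K := by
  classical
  unfold meas empLaw hits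
  rw [sum_filter]
  have h := law_sum (range K) (fun _ => 1 / (K : ℝ)) x (fun m a => if Q m then a else 0) (fun m => by simp)
    (fun m a b => by split_ifs <;> simp)
  rw [h, ← sum_filter, sum_const, nsmul_eq_mul]
  ring

lemma meas_empLaw_le {x : ℕ → ℕ} {Q : ℕ → Prop} {K : ℕ} (hK : 1 ≤ K) {c : ℝ} (h : meas (empLaw x K) Q ≤ c) :
    hits x Q K ≤ c * K := by
  rw [meas_empLaw] at h
  have hK0 : (0 : ℝ) < K := by exact_mod_cast hK
  rwa [div_le_iff₀ hK0] at h

lemma le_meas_empLaw {x : ℕ → ℕ} {Q : ℕ → Prop} {K : ℕ} (hK : 1 ≤ K) {c : ℝ} (h : c ≤ meas (empLaw x K) Q) :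
    c * K ≤ hits x Q K := by
  rw [meas_empLaw] at h
  have hK0 : (0 : ℝ) < K := by exact_mod_cast hK
  rwa [le_div_iff₀ hK0] at h

/-- **Deterministic criterion.** If the averages of the exponentials at all irrational frequencies tend to zero along the
sequence and also the proportions of the terms below every bound, then the empirical distributions have eventually all
properties in the sense of `Always`. -/
theorem always_emp {Q : (ℕ →₀ ℝ) → Prop} (hQ : Always Q) : ∃ Θ : Finset ℝ, (∀ θ ∈ Θ, Irrational θ) ∧ ∃ n₀ : ℕ,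
    ∀ x : ℕ → ℕ, (∀ θ ∈ Θ, Tendsto (fun K : ℕ => ‖∑ k ∈ range K, ex (θ * x k)‖ / K) atTop (𝓝 0)) →
      (Tendsto (fun K : ℕ => hits x (fun m => m < n₀) K / K) atTop (𝓝 0)) →
      ∀ᶠ K in atTop, Q (empLaw x K) := by
  classical
  obtain ⟨Θ, hΘ, ε, hε, n₀, h⟩ := hQ
  refine ⟨Θ, hΘ, n₀, fun x hx hn => ?_⟩
  have h1 : ∀ᶠ K : ℕ in atTop, ∀ θ ∈ Θ, ‖∑ k ∈ range K, ex (θ * x k)‖ / K ≤ ε := by
    rw [eventually_all_finset]
    intro θ hθ
    exact (hx θ hθ).eventually_le_const hε
  filter_upwards [h1, hn.eventually_le_const hε, eventually_ge_atTop 1] with K h1 h2 hK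
  have hK0 : (0 : ℝ) < K := by exact_mod_cast hK
  apply h
  refine law_near (fun _ _ => by positivity) ?_ _ (fun θ hθ => ?_) ?_
  · rw [sum_const, card_range, nsmul_eq_mul, mul_one_div_cancel hK0.ne']
  · have e : ∑ i ∈ range K, ((1 / (K : ℝ) : ℝ) : ℂ) * ex (θ * x i) = ((1 / (K : ℝ) : ℝ) : ℂ) * ∑ i ∈ range K, ex (θ * x i) := by
      rw [mul_sum]
    rw [e, norm_mul, Complex.norm_real, Real.norm_of_nonneg (by positivity)]
    have := h1 θ hθ
    rwa [div_eq_mul_one_div, mul_comm] at this
  · rw [← sum_filter, sum_const, nsmul_eq_mul]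
    rw [hits_eq x (fun m => m < n₀) K, div_eq_mul_one_div] at h2
    exact h2

/-- **random walks** -/
theorem always_path {Q : (ℕ →₀ ℝ) → Prop} (hQ : Always Q) {Ω : Type} [MeasurableSpace Ω] {P : Measure Ω}
    {X : ℕ → Ω → ℕ} {η : ℝ} {a b : ℕ} (h : Steps P X η a b) {κ : ℕ} (hκ : 1 ≤ κ) (c₀ : ℕ) :
    ∀ᵐ ω ∂P, ∀ᶠ K in atTop, Q (empLaw (fun k => c₀ + κ * place X k ω) K) := by
  classical
  obtain ⟨Θ, hΘ, n₀, h0⟩ := always_emp hQ
  have h1 : ∀ᵐ ω ∂P, ∀ θ ∈ Θ, Tendsto (fun K : ℕ => ‖path X (θ * κ) K ω‖ / K) atTop (𝓝 0) := by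
    rw [Finset.eventually_all]
    intro θ hθ
    exact h.weyl ((hΘ θ hθ).mul_natCast (m := κ) (by omega))
  filter_upwards [h1, h.escape] with ω h1 h2
  apply h0
  · intro θ hθ
    refine (h1 θ hθ).congr fun K => ?_
    have e : ∑ k ∈ range K, ex (θ * ((c₀ + κ * place X k ω : ℕ) : ℝ)) = ex (θ * c₀) * path X (θ * κ) K ω := by
      unfold path
      rw [mul_sum]
      refine sum_congr rfl fun k _ => ?_
      have e1 : θ * ((c₀ + κ * place X k ω : ℕ) : ℝ) = θ * c₀ + θ * κ * place X k ω := by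
        push_cast
        ring
      rw [e1, ex_add]
    rw [e, norm_mul, norm_ex, one_mul]
  · obtain ⟨K₀, hK₀⟩ := eventually_atTop.1 (h2.eventually_ge_atTop n₀)
    have h3 : ∀ K : ℕ, hits (fun k => c₀ + κ * place X k ω) (fun m => m < n₀) K ≤ K₀ := by
      intro K
      rw [hits_eq (fun k => c₀ + κ * place X k ω) (fun m => m < n₀) K]
      have h4 : (range K).filter (fun k => c₀ + κ * place X k ω < n₀) ⊆ range K₀ := by
        intro k hk
        rw [mem_filter] at hk
        rw [mem_range]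
        by_contra hcon
        have h5 := hK₀ k (by omega)
        have h6 : place X k ω ≤ κ * place X k ω := Nat.le_mul_of_pos_left _ (by omega)
        omega
      have h5 := card_le_card h4
      rw [card_range] at h5
      exact_mod_cast h5
    refine squeeze_zero (fun K => ?_) (fun K => div_le_div_of_nonneg_right (h3 K) (Nat.cast_nonneg K))
      (tendsto_const_div_atTop_nhds_zero_nat (K₀ : ℝ))
    unfold hits
    positivity

/-- Independent random natural numbers `Y k` whose exponential sums `E e(θ Y k)` at every irrational frequency `θ` and whose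
probabilities of every single value tend to zero. -/
structure Spread {Ω : Type} [MeasurableSpace Ω] (P : Measure Ω) (Y : ℕ → Ω → ℕ) : Prop where
  indep : iIndepFun Y P
  meas : ∀ i, Measurable (Y i)
  small : ∀ θ : ℝ, Irrational θ → Tendsto (fun k => ∫ ω, ex (θ * Y k ω) ∂P) atTop (𝓝 0)
  escape : ∀ m : ℕ, Tendsto (fun k => P.real {ω | Y k ω = m}) atTop (𝓝 0)

/-- averages of a sequence that tends to zero -/
lemma cesaro {u : ℕ → ℂ} (hu : Tendsto u atTop (𝓝 0)) :
    Tendsto (fun K : ℕ => ‖∑ k ∈ range K, u k‖ / K) atTop (𝓝 0) := by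
  have h1 := (hu.cesaro_smul (E := ℂ)).norm
  rw [norm_zero] at h1
  refine h1.congr fun K => ?_
  rw [norm_smul, norm_inv, Real.norm_of_nonneg (Nat.cast_nonneg K)]
  ring

/-- **independent random integers** -/
theorem always_indep {Q : (ℕ →₀ ℝ) → Prop} (hQ : Always Q) {Ω : Type} [MeasurableSpace Ω] {P : Measure Ω}
    {Y : ℕ → Ω → ℕ} (h : Spread P Y) : ∀ᵐ ω ∂P, ∀ᶠ K in atTop, Q (empLaw (fun k => Y k ω) K) := by
  classical
  obtain ⟨Θ, hΘ, n₀, h0⟩ := always_emp hQ
  have := h.indep.isProbabilityMeasure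
  have h1 : ∀ᵐ ω ∂P, ∀ θ ∈ Θ, Tendsto (fun K : ℕ => ‖∑ k ∈ range K, ex (θ * Y k ω)‖ / K) atTop (𝓝 0) := by
    rw [Finset.eventually_all]
    intro θ hθ
    have h2 := lln h.indep h.meas (f := fun m => ex (θ * m)) (fun m => (norm_ex _).le)
    filter_upwards [h2] with ω hω
    have h3 := cesaro (h.small θ (hΘ θ hθ))
    have h4 := hω.add h3
    rw [add_zero] at h4
    refine squeeze_zero (fun K => by positivity) (fun K => ?_) h4
    rw [← add_div]
    apply div_le_div_of_nonneg_right _ (Nat.cast_nonneg K)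
    have e : ∑ k ∈ range K, ex (θ * Y k ω) = ∑ k ∈ range K, (ex (θ * Y k ω) - ∫ ω', ex (θ * Y k ω') ∂P) +
        ∑ k ∈ range K, ∫ ω', ex (θ * Y k ω') ∂P := by
      rw [← sum_add_distrib]
      refine sum_congr rfl fun k _ => ?_
      ring
    rw [e]
    exact norm_add_le _ _
  have h5 : ∀ᵐ ω ∂P, Tendsto (fun K : ℕ => hits (fun k => Y k ω) (fun m => m < n₀) K / K) atTop (𝓝 0) := by
    have h2 := lln h.indep h.meas (f := fun m => if m < n₀ then 1 else 0) (fun m => by split_ifs <;> simp)
    have h3 : Tendsto (fun k => ∫ ω', (if Y k ω' < n₀ then (1 : ℂ) else 0) ∂P) atTop (𝓝 0) := by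
      have e : ∀ k, ∫ ω', (if Y k ω' < n₀ then (1 : ℂ) else 0) ∂P = ((∑ m ∈ range n₀, P.real {ω | Y k ω = m} : ℝ) : ℂ) := by
        intro k
        have e1 : ∀ ω', (if Y k ω' < n₀ then (1 : ℂ) else 0) =
            ∑ m ∈ range n₀, ({ω | Y k ω = m}).indicator (fun _ => (1 : ℂ)) ω' := by
          intro ω'
          simp only [Set.indicator_apply, Set.mem_ofPred_eq]
          rw [sum_ite_eq (range n₀) (Y k ω') (fun _ => (1 : ℂ))]
          simp only [mem_range]
        simp only [e1]
        rw [integral_finsetSum]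
        · push_cast
          refine sum_congr rfl fun m _ => ?_
          have h6 : MeasurableSet {ω | Y k ω = m} := h.meas k (measurableSet_singleton m)
          rw [integral_indicator_const _ h6]
          simp
        · intro m _
          exact (integrable_const (1 : ℂ)).indicator (h.meas k (measurableSet_singleton m))
      simp only [e]
      have h4 : Tendsto (fun k => ∑ m ∈ range n₀, P.real {ω | Y k ω = m}) atTop (𝓝 (∑ _m ∈ range n₀, (0 : ℝ))) :=
        tendsto_finsetSum _ fun m _ => h.escape m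
      rw [sum_const_zero] at h4
      have h5 := (Complex.continuous_ofReal.tendsto 0).comp h4
      rwa [Complex.ofReal_zero] at h5
    filter_upwards [h2] with ω hω
    have h4 := hω.add (cesaro h3)
    rw [add_zero] at h4
    refine squeeze_zero (fun K => ?_) (fun K => ?_) h4
    · unfold hits
      positivity
    · rw [← add_div]
      apply div_le_div_of_nonneg_right _ (Nat.cast_nonneg K)
      have e : (hits (fun k => Y k ω) (fun m => m < n₀) K : ℝ) = ‖∑ k ∈ range K, (if Y k ω < n₀ then (1 : ℂ) else 0)‖ := by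
        rw [← sum_filter, sum_const, nsmul_eq_mul, mul_one, Complex.norm_natCast]
        exact hits_eq (fun k => Y k ω) (fun m => m < n₀) K
      rw [e]
      have e2 : ∑ k ∈ range K, (if Y k ω < n₀ then (1 : ℂ) else 0) =
          ∑ k ∈ range K, ((if Y k ω < n₀ then (1 : ℂ) else 0) - ∫ ω', (if Y k ω' < n₀ then (1 : ℂ) else 0) ∂P) +
          ∑ k ∈ range K, ∫ ω', (if Y k ω' < n₀ then (1 : ℂ) else 0) ∂P := by
        rw [← sum_add_distrib]
        refine sum_congr rfl fun k _ => ?_
        ring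
      rw [e2]
      exact norm_add_le _ _
  filter_upwards [h1, h5] with ω h1 h5
  exact h0 _ h1 h5

end Pool.Agent.Run7.h388.RM
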